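import Pool.Agent.Y250.BC.F
import Pool.Agent.Y250.PT.G
set_option autoImplicit false

/-! Smooth and analytic phases, functions of bounded complexity. -/

namespace Pool.Agent.Y250.BC

open MeasureTheory Set Complex Filter Topology
open scoped ENNReal NNReal
open Pool.Agent.Y250.PT (J J_bdd J_mul Dk)

/-- **large multiples of a smooth phase** -/
theorem large_lev (q p κ : ℝ) (hq : 3 < q) (hp : q / (q - 2) < p) (hκ : 1 / q < κ)
    (φ : ℝ × ℝ → ℝ) (hφ : ∀ n : ℕ, ContDiff ℝ n φ) (ε : ℝ) (hε : 0 < ε) :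
    ∃ C : ℝ≥0, ∀ (t : ℝ) (N : ℕ) (g : ℝ × ℝ → ℂ), 1 ≤ |t| → 1 ≤ N → Tame N g →
      eLpNorm (ext univ fun x => cexp (I * ((t * φ x : ℝ) : ℂ)) * g x)
        (ENNReal.ofReal q) volume ≤ C * (ENNReal.ofReal (|t| ^ ε) * (((N : ℝ≥0) ^ κ : ℝ≥0) : ℝ≥0∞)) *
          eLpNorm g (ENNReal.ofReal p) volume := by
  obtain ⟨C, hC⟩ := main q p κ hq hp hκ
  obtain ⟨n, hn⟩ := exists_nat_gt (2 / ε)
  set m : ℕ := n + 1 with hm
  have hm0 : (0 : ℝ) < m := by rw [hm]; push_cast; positivity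
  have hmε : (2 : ℝ) / m ≤ ε := by
    rw [div_le_iff₀ hm0]
    have h1 : 2 / ε < m := by rw [hm]; push_cast; linarith
    rw [div_lt_iff₀ hε] at h1
    linarith
  obtain ⟨M, hM⟩ := J_bdd φ (m + 1) (hφ (m + 1))
  set A : ℝ≥0 := (M / m.factorial) ^ ((2 : ℝ) / m) with hA
  refine ⟨C * (((1 + m) ^ 5) ^ κ * (1 + A)), ?_⟩
  intro t N g ht hN hg
  set L : ℝ≥0 := ⟨|t|, abs_nonneg t⟩ with hL
  have hL1 : 1 ≤ L := ht
  have h1 := hC m (fun x => t * φ x) (L * M) N g (by omega)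
    (contDiff_const.mul (hφ (m + 1))) (fun i j hij x hx => by
      rw [J_mul, abs_mul, NNReal.coe_mul]
      exact mul_le_mul_of_nonneg_left (hM i j hij x hx) (abs_nonneg _)) hN hg
  refine h1.trans ?_
  gcongr ?_ * _
  have h5 : ENNReal.ofReal (|t| ^ ε) = ((L ^ ε : ℝ≥0) : ℝ≥0∞) := by
    rw [ENNReal.ofReal, Real.toNNReal_of_nonneg (by positivity)]
    rfl
  have h3 : (L * M / m.factorial) ^ ((2 : ℝ) / m) = L ^ ((2 : ℝ) / m) * A := by
    rw [mul_div_assoc, NNReal.mul_rpow]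
  have h4 : L ^ ((2 : ℝ) / m) ≤ L ^ ε := NNReal.rpow_le_rpow_of_exponent_le hL1 hmε
  have h6 : (1 : ℝ≥0) ≤ L ^ ε := NNReal.one_le_rpow hL1 hε.le
  rw [h5, ← ENNReal.coe_mul, ← ENNReal.coe_mul, ← ENNReal.coe_mul, ENNReal.coe_le_coe, h3,
    NNReal.mul_rpow]
  calc C * ((1 + L ^ ((2 : ℝ) / m) * A) * (((1 + m) ^ 5) ^ κ * (N : ℝ≥0) ^ κ))
      ≤ C * ((L ^ ε + L ^ ε * A) * (((1 + m) ^ 5) ^ κ * (N : ℝ≥0) ^ κ)) := by gcongr
    _ = _ := by ring

/-- **analytic phases** -/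
theorem ana_lev (q p κ : ℝ) (hq : 3 < q) (hp : q / (q - 2) < p) (hκ : 1 / q < κ) :
    ∃ C : ℝ≥0, ∀ (φ : ℝ × ℝ → ℝ) (A R : ℝ) (N : ℕ) (g : ℝ × ℝ → ℂ), 0 ≤ A → 1 ≤ R →
      (∀ n : ℕ, ContDiff ℝ n φ) →
      (∀ k : ℕ, 2 ≤ k → ∀ i j : ℕ, i + j = k → ∀ x ∈ Dk, |J φ i j x| ≤ A * R ^ k * k.factorial) →
      1 ≤ N → Tame N g →
      eLpNorm (ext univ fun x => cexp (I * (φ x : ℂ)) * g x) (ENNReal.ofReal q) volume ≤
        C * ENNReal.ofReal (R ^ 4 * ((2 + Real.log (1 + A)) ^ 5 * N) ^ κ) *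
          eLpNorm g (ENNReal.ofReal p) volume := by
  obtain ⟨C, hC⟩ := main q p κ hq hp hκ
  have hκ0 : 0 < κ := lt_trans (by positivity) hκ
  refine ⟨C * ((1 + 4 * ⟨Real.exp 2, (Real.exp_pos 2).le⟩) * 32 ^ κ), ?_⟩
  intro φ A R N g hA hR hφ hder hN hg
  have hlog : 0 ≤ Real.log (1 + A) := Real.log_nonneg (by linarith)
  set n : ℕ := 1 + ⌈Real.log (1 + A)⌉₊ with hn
  have hn1 : 1 ≤ n := by omega
  have hn0 : (0 : ℝ) < n := by exact_mod_cast hn1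
  have hn1' : (1 : ℝ) ≤ n := by exact_mod_cast hn1
  have hn3 : Real.log (1 + A) ≤ n := by
    have h1 := Nat.le_ceil (Real.log (1 + A))
    rw [hn]
    push_cast
    linarith
  have hn4 : (1 : ℝ) + n ≤ 2 * (2 + Real.log (1 + A)) := by
    have h1 := (Nat.ceil_lt_add_one hlog).le
    rw [hn]
    push_cast
    linarith
  have hf0 : (0 : ℝ) < (n.factorial : ℕ) := by exact_mod_cast Nat.factorial_pos _
  set M : ℝ≥0 := ⟨A * R ^ (n + 1) * (n + 1).factorial, by positivity⟩ with hM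
  have hMe : (M : ℝ) = A * R ^ (n + 1) * (n + 1).factorial := rfl
  have h1 := hC n φ M N g hn1 (by exact_mod_cast hφ (n + 1)) (fun i j hij x hx =>
    hder (n + 1) (by omega) i j hij x hx) hN hg
  refine h1.trans ?_
  have hR0 : (0 : ℝ) < R := by linarith
  have hpow : ((M / n.factorial) ^ ((2 : ℝ) / n) : ℝ≥0) ≤ (4 * Real.exp 2 * R ^ 4 : ℝ) := by
    push_cast
    rw [hMe]
    have e1 : A * R ^ (n + 1) * (n + 1).factorial / (n.factorial : ℝ) =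
        A * (R ^ (n + 1) * (n + 1 : ℕ)) := by
      rw [Nat.factorial_succ]
      push_cast
      field_simp
    rw [e1]
    have h2n : ((n + 1 : ℕ) : ℝ) ≤ (2 : ℝ) ^ n := by
      have : n + 1 ≤ 2 ^ n := Nat.lt_two_pow_self
      exact_mod_cast this
    calc (A * (R ^ (n + 1) * (n + 1 : ℕ))) ^ ((2 : ℝ) / n)
        ≤ ((1 + A) * (R ^ (2 * n) * (2 : ℝ) ^ n)) ^ ((2 : ℝ) / n) := by
          apply Real.rpow_le_rpow (by positivity) _ (by positivity)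
          have c1 : R ^ (n + 1) ≤ R ^ (2 * n) := pow_le_pow_right₀ hR (by omega)
          have c2 : A ≤ 1 + A := by linarith
          gcongr
      _ = (1 + A) ^ ((2 : ℝ) / n) * (R ^ 4 * 4) := by
          rw [Real.mul_rpow (by positivity) (by positivity), Real.mul_rpow (by positivity)
            (by positivity), ← Real.rpow_natCast R (2 * n), ← Real.rpow_mul hR0.le,
            ← Real.rpow_natCast 2 n, ← Real.rpow_mul (by norm_num)]
          have d1 : ((2 * n : ℕ) : ℝ) * (2 / n) = 4 := by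
            push_cast
            field_simp
            norm_num
          have d2 : (n : ℝ) * (2 / n) = 2 := by field_simp
          rw [d1, d2]
          norm_num
      _ ≤ Real.exp 2 * (R ^ 4 * 4) := by
          have a1 : (1 + A) ^ ((2 : ℝ) / n) ≤ Real.exp 2 := by
            rw [Real.rpow_def_of_pos (by positivity)]
            apply Real.exp_le_exp.mpr
            rw [mul_div_assoc', div_le_iff₀ hn0]
            linarith
          gcongr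
      _ = _ := by ring
  have hR4 : (1 : ℝ) ≤ R ^ 4 := one_le_pow₀ hR
  have hN0 : (0 : ℝ) ≤ N := Nat.cast_nonneg N
  gcongr ?_ * _
  rw [← ENNReal.ofReal_coe_nnreal, ← ENNReal.ofReal_coe_nnreal, ← ENNReal.ofReal_coe_nnreal,
    ← ENNReal.ofReal_mul (NNReal.coe_nonneg _), ← ENNReal.ofReal_mul (NNReal.coe_nonneg _)]
  apply ENNReal.ofReal_le_ofReal
  push_cast
  push_cast at hpow
  change (C : ℝ) * ((1 + ((M : ℝ) / n.factorial) ^ ((2 : ℝ) / n)) * ((1 + (n : ℝ)) ^ 5 * N) ^ κ) ≤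
    C * ((1 + 4 * Real.exp 2) * 32 ^ κ) * (R ^ 4 * ((2 + Real.log (1 + A)) ^ 5 * N) ^ κ)
  have h2 : ((1 + (n : ℝ)) ^ 5 * N) ^ κ ≤ 32 ^ κ * ((2 + Real.log (1 + A)) ^ 5 * N) ^ κ := by
    rw [← Real.mul_rpow (by norm_num) (by positivity)]
    apply Real.rpow_le_rpow (by positivity) _ hκ0.le
    calc (1 + (n : ℝ)) ^ 5 * N ≤ (2 * (2 + Real.log (1 + A))) ^ 5 * N := by gcongr
      _ = _ := by ring
  have h3 : 1 + ((M : ℝ) / n.factorial) ^ ((2 : ℝ) / n) ≤ (1 + 4 * Real.exp 2) * R ^ 4 := by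
    have : 4 * Real.exp 2 * R ^ 4 + R ^ 4 = (1 + 4 * Real.exp 2) * R ^ 4 := by ring
    linarith
  have h4 : 0 ≤ 1 + ((M : ℝ) / n.factorial) ^ ((2 : ℝ) / n) := by positivity
  calc (C : ℝ) * ((1 + ((M : ℝ) / n.factorial) ^ ((2 : ℝ) / n)) * ((1 + (n : ℝ)) ^ 5 * N) ^ κ)
      ≤ C * (((1 + 4 * Real.exp 2) * R ^ 4) * (32 ^ κ * ((2 + Real.log (1 + A)) ^ 5 * N) ^ κ)) := by
        gcongr
    _ = _ := by ring

end Pool.Agent.Y250.BC
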