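import Pool.Agent.Y250.BC.F
import Pool.Agent.Y250.PV.V5
set_option autoImplicit false

/-! The range of the exponents is optimal. -/

namespace Pool.Agent.Y250.BC

open MeasureTheory Set Complex Filter Topology
open scoped ENNReal NNReal
open Pool.Agent.Y250.PT (Dk)
open Pool.Agent.Y250.PV (gq gq_meas gq_out gq_in Qr Qr_meas Qr_vol mem_Qr Bx Bx_meas Bx_vol ext_ge)

lemma ivs_ord (S : Set ℝ) (h : S.OrdConnected) : Ivs 1 S :=
  ⟨fun _ => S, fun _ => h, by
    ext x
    simp only [mem_iUnion]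
    exact ⟨fun hx => ⟨0, hx⟩, fun ⟨_, hx⟩ => hx⟩⟩

lemma gq_tame (ρ : ℝ) (h0 : 0 < ρ) (h1 : ρ ≤ 1 / 10) : Tame 1 (gq ρ) := by
  have hre : ∀ x, (gq ρ x).re = (Qr ρ).indicator (fun _ => (1 : ℝ)) x := by
    intro x
    by_cases hx : x ∈ Qr ρ
    · rw [gq_in hx, indicator_of_mem hx]; rfl
    · rw [gq_out hx, indicator_of_notMem hx]; rfl
  have him : ∀ x, (gq ρ x).im = 0 := by
    intro x
    by_cases hx : x ∈ Qr ρ
    · rw [gq_in hx]; rfl
    · rw [gq_out hx]; rfl
  have hemp : LC 1 (∅ : Set (ℝ × ℝ)) :=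
    ⟨fun _ => ivs_ord _ (by simpa using ordConnected_empty), fun _ => ivs_ord _ (by simpa using ordConnected_empty)⟩
  have hQ : LC 1 (Qr ρ) := by
    refine ⟨fun y => ivs_ord _ ?_, fun x => ivs_ord _ ?_⟩
    · by_cases hy : y ∈ Icc 0 ρ
      · have : {x | (x, y) ∈ Qr ρ} = Icc 0 ρ := by
          ext x
          exact ⟨fun h => h.1, fun h => ⟨h, hy⟩⟩
        rw [this]
        exact ordConnected_Icc
      · have : {x | (x, y) ∈ Qr ρ} = ∅ := by
          ext x
          exact ⟨fun h => absurd h.2 hy, fun h => absurd h (notMem_empty x)⟩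
        rw [this]
        exact ordConnected_empty
    · by_cases hx : x ∈ Icc 0 ρ
      · have : {y | (x, y) ∈ Qr ρ} = Icc 0 ρ := by
          ext y
          exact ⟨fun h => h.2, fun h => ⟨hx, h⟩⟩
        rw [this]
        exact ordConnected_Icc
      · have : {y | (x, y) ∈ Qr ρ} = ∅ := by
          ext y
          exact ⟨fun h => absurd h.1 hx, fun h => absurd h (notMem_empty y)⟩
        rw [this]
        exact ordConnected_empty
  refine ⟨gq_meas ρ, ?_, ?_⟩
  · intro x hx
    apply gq_out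
    intro hm
    apply hx
    rw [mem_Qr] at hm
    simp only [Dk, mem_ofPred_eq]
    nlinarith
  · intro s hs
    refine ⟨?_, ?_, ?_, ?_⟩
    · by_cases hs1 : s < 1
      · have : {x | s < (gq ρ x).re} = Qr ρ := by
          ext x
          rw [mem_ofPred_eq, hre]
          by_cases hx : x ∈ Qr ρ
          · rw [indicator_of_mem hx]
            exact ⟨fun _ => hx, fun _ => hs1⟩
          · rw [indicator_of_notMem hx]
            exact ⟨fun h => absurd h (by linarith), fun h => absurd h hx⟩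
        rw [this]
        exact hQ
      · have : {x | s < (gq ρ x).re} = ∅ := by
          ext x
          rw [mem_ofPred_eq, hre]
          refine ⟨fun h => absurd h ?_, fun h => absurd h (notMem_empty x)⟩
          by_cases hx : x ∈ Qr ρ
          · rw [indicator_of_mem hx]
            exact hs1
          · rw [indicator_of_notMem hx]
            linarith
        rw [this]
        exact hemp
    · have : {x | (gq ρ x).re < -s} = ∅ := by
        ext x
        rw [mem_ofPred_eq, hre]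
        refine ⟨fun h => absurd h ?_, fun h => absurd h (notMem_empty x)⟩
        by_cases hx : x ∈ Qr ρ
        · rw [indicator_of_mem hx]
          linarith
        · rw [indicator_of_notMem hx]
          linarith
      rw [this]
      exact hemp
    · have : {x | s < (gq ρ x).im} = ∅ := by
        ext x
        rw [mem_ofPred_eq, him]
        exact ⟨fun h => absurd h (by linarith), fun h => absurd h (notMem_empty x)⟩
      rw [this]
      exact hemp
    · have : {x | (gq ρ x).im < -s} = ∅ := by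
        ext x
        rw [mem_ofPred_eq, him]
        exact ⟨fun h => absurd h (by linarith), fun h => absurd h (notMem_empty x)⟩
      rw [this]
      exact hemp

/-- **optimality of the range** -/
theorem knapp (q p : ℝ) (hq : 3 < q) (hp : 1 ≤ p) (hpq : p < q / (q - 2)) (C : ℝ≥0) :
    ∃ g : ℝ × ℝ → ℂ, Tame 1 g ∧ C * eLpNorm g (ENNReal.ofReal p) volume <
      eLpNorm (ext univ g) (ENNReal.ofReal q) volume := by
  have hq0 : 0 < q := by linarith
  have hq2 : 0 < q - 2 := by linarith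
  have hp0 : 0 < p := by linarith
  have hexp : 0 < 2 / p - (2 - 4 / q) := by
    rw [lt_div_iff₀ hq2] at hpq
    have e : 2 / p - (2 - 4 / q) = 2 * (q - p * (q - 2)) / (p * q) := by
      field_simp
      ring
    rw [e]
    apply div_pos
    · linarith
    · positivity
  set c₁ : ℝ := (1 / 8 : ℝ) ^ (1 / q) with hc₁
  have hc₁0 : 0 < c₁ := Real.rpow_pos_of_pos (by norm_num) _
  obtain ⟨ρ, h0, h1, h2⟩ := Pool.Agent.Y25.SS.exists_rho (2 / p - (2 - 4 / q)) (2 * C) c₁ hexp hc₁0
  refine ⟨gq ρ, gq_tame ρ h0 h1, ?_⟩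
  set B : Set (ℝ × ℝ × ℝ) := Bx (1 / (4 * ρ)) (1 / (4 * ρ ^ 2)) with hB
  have hlow : eLpNorm (B.indicator fun _ => (ρ ^ 2 / 2 : ℝ)) (ENNReal.ofReal q) volume ≤
      eLpNorm (ext univ (gq ρ)) (ENNReal.ofReal q) volume := by
    apply eLpNorm_mono
    intro ξ
    by_cases h : ξ ∈ B
    · rw [indicator_of_mem h, Real.norm_eq_abs, abs_of_nonneg (by positivity)]
      exact ext_ge ρ h0 ξ h
    · rw [indicator_of_notMem h, norm_zero]
      exact norm_nonneg _
  refine lt_of_lt_of_le ?_ hlow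
  have hqne : ENNReal.ofReal q ≠ 0 := by
    rw [Ne, ENNReal.ofReal_eq_zero]
    linarith
  have hpne : ENNReal.ofReal p ≠ 0 := by
    rw [Ne, ENNReal.ofReal_eq_zero]
    linarith
  rw [eLpNorm_indicator_const (Bx_meas _ _) hqne ENNReal.ofReal_ne_top,
    Bx_vol _ _ (by positivity) (by positivity), ENNReal.toReal_ofReal hq0.le]
  have hv : 8 * (1 / (4 * ρ)) * (1 / (4 * ρ)) * (1 / (4 * ρ ^ 2)) = (1 / 8) * ρ ^ (-4 : ℝ) := by
    have : ρ ^ (-4 : ℝ) = (ρ ^ 4)⁻¹ := by
      rw [Real.rpow_neg h0.le]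
      congr 1
      exact_mod_cast Real.rpow_natCast ρ 4
    rw [this]
    field_simp
    norm_num
  rw [hv, ENNReal.ofReal_rpow_of_nonneg (by positivity) (by positivity)]
  have he : ‖(ρ ^ 2 / 2 : ℝ)‖ₑ = ENNReal.ofReal (ρ ^ 2 / 2) :=
    Real.enorm_of_nonneg (by positivity)
  rw [he, ← ENNReal.ofReal_mul (by positivity)]
  have hC : (C : ℝ≥0∞) = ENNReal.ofReal (C : ℝ) := (ENNReal.ofReal_coe_nnreal).symm
  have hg : eLpNorm (gq ρ) (ENNReal.ofReal p) volume = ENNReal.ofReal (ρ ^ (2 / p)) := by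
    unfold gq
    rw [eLpNorm_indicator_const (Qr_meas ρ) hpne ENNReal.ofReal_ne_top, Qr_vol ρ h0,
      ENNReal.toReal_ofReal hp0.le, ENNReal.ofReal_rpow_of_nonneg (by positivity) (by positivity)]
    simp only [enorm_one, one_mul]
    congr 1
    rw [← Real.rpow_natCast ρ 2, ← Real.rpow_mul h0.le]
    congr 1
    push_cast
    ring
  rw [hg, hC, ← ENNReal.ofReal_mul (NNReal.coe_nonneg C)]
  have hkey : (C : ℝ) * ρ ^ (2 / p) < ρ ^ 2 / 2 * ((1 / 8) * ρ ^ (-4 : ℝ)) ^ (1 / q) := by
    rw [Real.mul_rpow (by norm_num) (by positivity), ← hc₁, ← Real.rpow_mul h0.le]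
    have h3 : ρ ^ 2 / 2 * (c₁ * ρ ^ (-4 * (1 / q))) = c₁ * ρ ^ (2 - 4 / q) / 2 := by
      have h4 : ρ ^ (2 - 4 / q) = ρ ^ 2 * ρ ^ (-4 * (1 / q)) := by
        have : 2 - 4 / q = 2 + -4 * (1 / q) := by ring
        rw [this, Real.rpow_add h0]
        congr 1
        exact_mod_cast Real.rpow_natCast ρ 2
      rw [h4]
      ring
    have h5 : ρ ^ (2 / p) = ρ ^ (2 / p - (2 - 4 / q)) * ρ ^ (2 - 4 / q) := by
      rw [← Real.rpow_add h0]
      congr 1
      ring
    rw [h3, h5]
    have h6 : 0 < ρ ^ (2 - 4 / q) := Real.rpow_pos_of_pos h0 _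
    have h7 := mul_lt_mul_of_pos_right h2 h6
    linarith
  exact (ENNReal.ofReal_lt_ofReal_iff_of_nonneg (by positivity)).2 hkey

end Pool.Agent.Y250.BC
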