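import Pool.Agent.Y250.BC.A
import Pool.Agent.Y250.PT.D
set_option autoImplicit false

/-! Amplitudes of modulus at most one: phases with bounded derivatives. -/

namespace Pool.Agent.Y250.BC

open MeasureTheory Set Complex Filter Topology
open scoped ENNReal NNReal
open Pool.Agent.Y183.PP (Poly ev ev_cont ev_deriv1 ev_fderiv dv_apply SQ)
open Pool.Agent.Y250.PT (Amp Amp.bd Var Dk Dk_conv Dk_meas Qc Qc_conv Qc_meas J tay_grad cell_amp
  cover ext_meas ext_norm exx)

/-- the estimate for polynomial phases in the coordinates of the extension operator -/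
theorem lev_ext (q θ : ℝ) (hθ1 : 1 < θ) (hθ2 : θ ≤ q - 2) : ∃ C : ℝ≥0, ∀ (D : ℕ) (P : Poly)
    (g : ℝ × ℝ → ℂ) (V : ℝ≥0), P.totalDegree ≤ D → Amp g V → 1 ≤ V → (∀ z, ‖g z‖ ≤ 1) →
      eLpNorm (Pool.Agent.Y250.PT.ext univ fun x => cexp (I * (ev P x : ℂ)) * g x) (ENNReal.ofReal q) volume ≤
        C * ((((1 + D) ^ 5 * V) ^ (θ / q) : ℝ≥0) : ℝ≥0∞) * eLpNorm g 1 volume ^ ((q - 1 - θ) / q) := by
  obtain ⟨C, hC⟩ := box_lev q θ hθ1 hθ2
  have hq0 : 0 < q := by linarith
  have hpi := Real.pi_pos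
  refine ⟨((ENNReal.ofReal ((2 * Real.pi) ^ 3) * C) ^ (1 / q)).toNNReal, ?_⟩
  have hCt : (ENNReal.ofReal ((2 * Real.pi) ^ 3) * C) ^ (1 / q) ≠ ∞ :=
    ENNReal.rpow_ne_top_of_nonneg (by positivity) (ENNReal.mul_ne_top ENNReal.ofReal_ne_top
      ENNReal.coe_ne_top)
  rw [ENNReal.coe_toNNReal hCt]
  intro D P g V hP hg hV hg1
  have hout : ∀ x : ℝ × ℝ, x ∉ SQ → g x = 0 := by
    intro x hx
    apply hg.supp
    by_contra hc
    apply hx
    push Not at hc
    unfold Pool.Agent.Y183.PP.SQ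
    have h1 : x.1 ^ 2 ≤ 1 := by nlinarith [sq_nonneg x.2]
    have h2 : x.2 ^ 2 ≤ 1 := by nlinarith [sq_nonneg x.1]
    rw [mem_prod, mem_Icc, mem_Icc]
    have h3 := abs_le_one_iff_mul_self_le_one.mpr (by nlinarith : x.1 * x.1 ≤ 1)
    have h4 := abs_le_one_iff_mul_self_le_one.mpr (by nlinarith : x.2 * x.2 ≤ 1)
    exact ⟨abs_le.mp h3, abs_le.mp h4⟩
  have hmain := hC D P hP g hg.meas V (by exact_mod_cast hV) hg1
    (fun y => by
      rw [ENNReal.ofReal_coe_nnreal]
      exact (eVariationOn.mono _ (subset_univ _)).trans (hg.var.1 y))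
    (fun x => by
      rw [ENNReal.ofReal_coe_nnreal]
      exact (eVariationOn.mono _ (subset_univ _)).trans (hg.var.2 x))
  have hL1 : ∫⁻ z in SQ, ‖g z‖ₑ ≤ eLpNorm g 1 volume := by
    rw [eLpNorm_one_eq_lintegral_enorm]
    exact lintegral_mono' Measure.restrict_le_self le_rfl
  have hB2 : ENNReal.ofReal ((1 + D : ℝ) ^ 5 * V) = (((1 + D) ^ 5 * V : ℝ≥0) : ℝ≥0∞) := by
    rw [← ENNReal.ofReal_coe_nnreal]
    push_cast
    rfl
  rw [ext_norm q hq0 P g hg.meas hout]
  calc (ENNReal.ofReal ((2 * Real.pi) ^ 3) * ∫⁻ t : ℝ, ∫⁻ y : ℝ × ℝ,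
        ‖∫ z in SQ, g z * exx (Pool.Agent.Y183.PP.Ph P y t) z‖ₑ ^ q) ^ (1 / q)
      ≤ (ENNReal.ofReal ((2 * Real.pi) ^ 3) * (C * (((1 + D) ^ 5 * V : ℝ≥0) : ℝ≥0∞) ^ θ *
        eLpNorm g 1 volume ^ (q - 1 - θ))) ^ (1 / q) := by
        gcongr
        refine hmain.trans ?_
        rw [hB2]
        gcongr
        linarith
    _ = (ENNReal.ofReal ((2 * Real.pi) ^ 3) * C) ^ (1 / q) *
        ((((1 + D) ^ 5 * V : ℝ≥0) : ℝ≥0∞) ^ θ) ^ (1 / q) *
        (eLpNorm g 1 volume ^ (q - 1 - θ)) ^ (1 / q) := by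
        rw [← ENNReal.mul_rpow_of_nonneg _ _ (by positivity), ← ENNReal.mul_rpow_of_nonneg _ _ (by positivity)]
        congr 1
        ring
    _ = _ := by
        rw [← ENNReal.rpow_mul, ← ENNReal.rpow_mul, mul_one_div, mul_one_div,
          ← ENNReal.coe_rpow_of_nonneg _ (by positivity)]

/-- **phases close to polynomials on small squares** -/
theorem cells_lev (q θ : ℝ) (hθ1 : 1 < θ) (hθ2 : θ ≤ q - 2) : ∃ C : ℝ≥0, ∀ (n N : ℕ) (φ : ℝ × ℝ → ℝ)
    (M : ℝ) (g : ℝ × ℝ → ℂ) (V : ℝ≥0), 0 < N → ContDiff ℝ (n + 1 : ℕ) φ → 0 ≤ M →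
      (∀ i j, i + j = n + 1 → ∀ x ∈ Dk, |J φ i j x| ≤ M) → M * (2 / N) ^ n / n.factorial ≤ 1 →
      Amp g V → 1 ≤ V → (∀ z, ‖g z‖ ≤ 1) →
      eLpNorm (Pool.Agent.Y250.PT.ext univ fun x => cexp (I * (φ x : ℂ)) * g x) (ENNReal.ofReal q) volume ≤
        C * ((N + 1) ^ 2 * ((1 + n) ^ 5 * V) ^ (θ / q) : ℝ≥0) *
          eLpNorm g 1 volume ^ ((q - 1 - θ) / q) := by
  classical
  obtain ⟨C, hC⟩ := lev_ext q θ hθ1 hθ2
  have hq0 : 0 < q := by linarith
  refine ⟨4 * C, ?_⟩
  intro n N φ M g V hN hφ hM hJ hNM hg hV1 hg1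
  set U : Set (ℝ × ℝ) := univ with hUdef
  have hU : ∀ x, x ∉ U → g x = 0 := fun x hx => absurd (mem_univ x) hx
  set W : ℝ≥0∞ := eLpNorm g 1 volume ^ ((q - 1 - θ) / q) with hW
  have hφd : Differentiable ℝ φ := hφ.differentiable (by simp)
  have hN' : (0 : ℝ) < N := by exact_mod_cast hN
  have hN1 : (1 : ℝ) / N ≤ 1 := by
    rw [div_le_one hN']
    exact_mod_cast hN
  -- one cell
  have hcell : ∀ a b : ℕ, eLpNorm (Pool.Agent.Y250.PT.ext U fun x => (Qc N a b).indicator
      (fun x => cexp (I * (φ x : ℂ)) * g x) x) (ENNReal.ofReal q) volume ≤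
        C * ((((1 + n) ^ 5 * (4 * V)) ^ (θ / q) : ℝ≥0) : ℝ≥0∞) * W := by
    intro a b
    set K := Qc N a b ∩ Dk with hKdef
    have hKc : Convex ℝ K := (Qc_conv N a b).inter Dk_conv
    have hKm : MeasurableSet K := (Qc_meas N a b).inter Dk_meas
    have hout : ∀ x, x ∉ Dk → g x = 0 := by
      intro x hx
      apply hg.supp
      simp only [Dk, mem_ofPred_eq, not_le] at hx
      exact hx
    rcases K.eq_empty_or_nonempty with hKe | ⟨c, hc⟩
    · have e : (Pool.Agent.Y250.PT.ext U fun x => (Qc N a b).indicator (fun x => cexp (I * (φ x : ℂ)) * g x) x) =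
          fun _ => 0 := by
        ext ξ
        unfold Pool.Agent.Y250.PT.ext
        rw [← integral_zero (ℝ × ℝ) ℂ (μ := volume.restrict U)]
        apply integral_congr_ae
        refine ae_of_all _ fun x => ?_
        simp only
        by_cases h : x ∈ Qc N a b
        · rw [indicator_of_mem h]
          by_cases h2 : x ∈ Dk
          · exact absurd (show x ∈ K from ⟨h, h2⟩) (by rw [hKe]; exact notMem_empty x)
          · rw [hout x h2, mul_zero, mul_zero]
        · rw [indicator_of_notMem h, mul_zero]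
      rw [e]
      simp
    · obtain ⟨T, hTd, hT⟩ := tay_grad K hKc c hc M n φ hφ (fun i j hij x hx => hJ i j hij x hx.2)
      have hdist : ∀ x ∈ K, |x.1 - c.1| + |x.2 - c.2| ≤ 2 / N := by
        intro x hx
        have a1 := hx.1.1
        have a2 := hx.1.2
        have a3 := hc.1.1
        have a4 := hc.1.2
        rw [mem_Ico] at a1 a2 a3 a4
        have b1 : |x.1 - c.1| ≤ 1 / N := by
          rw [abs_le]
          have : ((a : ℝ) + 1) / N = a / N + 1 / N := by ring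
          constructor <;> linarith
        have b2 : |x.2 - c.2| ≤ 1 / N := by
          rw [abs_le]
          have : ((b : ℝ) + 1) / N = b / N + 1 / N := by ring
          constructor <;> linarith
        calc _ ≤ (1 : ℝ) / N + 1 / N := add_le_add b1 b2
          _ = 2 / N := by ring
      have hR : ∀ x ∈ K, M * (|x.1 - c.1| + |x.2 - c.2|) ^ n / n.factorial ≤ 1 := by
        intro x hx
        refine le_trans ?_ hNM
        have := hdist x hx
        gcongr
      have hamp := cell_amp g V hg K hKc hKm inter_subset_right (-(1 / 2) + a / N) (-(1 / 2) + b / N)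
        (by
          rintro x ⟨⟨hx1, hx2⟩, _⟩
          rw [mem_Ico] at hx1 hx2
          have e1 : ((a : ℝ) + 1) / N = a / N + 1 / N := by ring
          have e2 : ((b : ℝ) + 1) / N = b / N + 1 / N := by ring
          exact ⟨⟨hx1.1, by linarith⟩, ⟨hx2.1, by linarith⟩⟩) φ hφd T
        (fun x hx => (hT x hx).1.trans (hR x hx)) (fun x hx => (hT x hx).2.trans (hR x hx))
      have hle1 : ∀ x, ‖K.indicator (fun x => cexp (I * ((φ x - ev T x : ℝ) : ℂ)) * g x) x‖ ≤ ‖g x‖ := by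
        intro x
        by_cases h : x ∈ K
        · rw [indicator_of_mem h, norm_mul, mul_comm I, Complex.norm_exp_ofReal_mul_I, one_mul]
        · rw [indicator_of_notMem h, norm_zero]
          exact norm_nonneg _
      have h1 := hC n T _ (4 * V) hTd hamp (by
        calc (1 : ℝ≥0) = 1 * 1 := (mul_one _).symm
          _ ≤ 4 * V := by
              gcongr
              norm_num) (fun x => (hle1 x).trans (hg1 x))
      have hmono : eLpNorm (K.indicator fun x => cexp (I * ((φ x - ev T x : ℝ) : ℂ)) * g x) 1 volume ^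
          ((q - 1 - θ) / q) ≤ W := by
        rw [hW]
        apply ENNReal.rpow_le_rpow _ (div_nonneg (by linarith) hq0.le)
        exact eLpNorm_mono hle1
      refine le_trans (le_of_eq ?_) (h1.trans (mul_le_mul_right hmono _))
      congr 1
      ext ξ
      unfold Pool.Agent.Y250.PT.ext
      apply integral_congr_ae
      refine ae_of_all _ fun x => ?_
      simp only
      congr 1
      by_cases h : x ∈ Qc N a b
      · rw [indicator_of_mem h]
        by_cases h2 : x ∈ Dk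
        · rw [indicator_of_mem (show x ∈ K from ⟨h, h2⟩), ← mul_assoc, ← Complex.exp_add]
          congr 2
          push_cast
          ring
        · rw [indicator_of_notMem (show x ∉ K from fun h3 => h2 h3.2), hout x h2, mul_zero, mul_zero]
      · rw [indicator_of_notMem h, indicator_of_notMem (show x ∉ K from fun h3 => h h3.1), mul_zero]
  -- the sum
  set f : ℝ × ℝ → ℂ := fun x => cexp (I * (φ x : ℂ)) * g x with hf
  have hfm : Measurable f := by
    apply Measurable.mul _ hg.meas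
    apply Continuous.measurable
    have c1 := hφd.continuous
    fun_prop
  have hfD : ∀ x, x ∉ Dk → f x = 0 := by
    intro x hx
    simp only [hf]
    rw [hg.supp x (by simpa only [Dk, mem_ofPred_eq, not_le] using hx), mul_zero]
  have hint : ∀ (a b : ℕ) (ξ : ℝ × ℝ × ℝ), Integrable (fun x : ℝ × ℝ =>
      cexp (-((x.1 * ξ.1 + x.2 * ξ.2.1 + (x.1 ^ 2 + x.2 ^ 2) * ξ.2.2 : ℝ) : ℂ) * I) *
        (Qc N a b).indicator f x) (volume.restrict U) := by
    intro a b ξ
    have hmeas : Measurable (fun x : ℝ × ℝ =>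
      cexp (-((x.1 * ξ.1 + x.2 * ξ.2.1 + (x.1 ^ 2 + x.2 ^ 2) * ξ.2.2 : ℝ) : ℂ) * I) *
        (Qc N a b).indicator f x) := by
      apply Measurable.mul _ (hfm.indicator (Qc_meas N a b))
      apply Continuous.measurable
      fun_prop
    have hIcc : IntegrableOn (fun x : ℝ × ℝ =>
      cexp (-((x.1 * ξ.1 + x.2 * ξ.2.1 + (x.1 ^ 2 + x.2 ^ 2) * ξ.2.2 : ℝ) : ℂ) * I) *
        (Qc N a b).indicator f x) (Icc (-1 : ℝ) 1 ×ˢ Icc (-1 : ℝ) 1) := by
      apply Measure.integrableOn_of_bounded (M := V)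
      · rw [Measure.volume_eq_prod, Measure.prod_prod, Real.volume_Icc]
        exact ENNReal.mul_ne_top ENNReal.ofReal_ne_top ENNReal.ofReal_ne_top
      · exact hmeas.aestronglyMeasurable
      · refine ae_of_all _ fun x => ?_
        rw [norm_mul, ← Complex.ofReal_neg, Complex.norm_exp_ofReal_mul_I, one_mul]
        by_cases h : x ∈ Qc N a b
        · rw [indicator_of_mem h]
          simp only [hf]
          rw [norm_mul, mul_comm I, Complex.norm_exp_ofReal_mul_I, one_mul]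
          exact hg.bd x
        · rw [indicator_of_notMem h, norm_zero]
          exact V.2
    have hfull : Integrable (fun x : ℝ × ℝ =>
      cexp (-((x.1 * ξ.1 + x.2 * ξ.2.1 + (x.1 ^ 2 + x.2 ^ 2) * ξ.2.2 : ℝ) : ℂ) * I) *
        (Qc N a b).indicator f x) := by
      rw [integrableOn_iff_integrable_of_support_subset] at hIcc
      · exact hIcc
      · intro x hx
        rw [Function.mem_support] at hx
        by_contra hc
        apply hx
        have : f x = 0 := by
          apply hfD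
          intro hD
          apply hc
          simp only [Dk, mem_ofPred_eq] at hD
          have h3 := abs_le_one_iff_mul_self_le_one.mpr (by nlinarith [sq_nonneg x.2] : x.1 * x.1 ≤ 1)
          have h4 := abs_le_one_iff_mul_self_le_one.mpr (by nlinarith [sq_nonneg x.1] : x.2 * x.2 ≤ 1)
          exact ⟨abs_le.mp h3, abs_le.mp h4⟩
        rw [indicator_apply]
        split_ifs
        · rw [this, mul_zero]
        · rw [mul_zero]
    exact hfull.restrict
  have hsum : Pool.Agent.Y250.PT.ext U f = ∑ a ∈ Finset.range (N + 1), ∑ b ∈ Finset.range (N + 1),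
      Pool.Agent.Y250.PT.ext U fun x => (Qc N a b).indicator f x := by
    ext ξ
    simp only [Finset.sum_apply]
    unfold Pool.Agent.Y250.PT.ext
    simp_rw [← integral_finsetSum _ (fun b _ => hint _ b ξ)]
    rw [← integral_finsetSum _ (fun a _ => integrable_finsetSum _ (fun b _ => hint a b ξ))]
    apply integral_congr_ae
    refine ae_of_all _ fun x => ?_
    simp only
    simp_rw [← Finset.mul_sum]
    congr 1
    by_cases h : x ∈ Dk
    · have := cover N hN x h (f x)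
      rw [← this]
      apply Finset.sum_congr rfl
      intro a _
      apply Finset.sum_congr rfl
      intro b _
      by_cases h2 : x ∈ Qc N a b
      · rw [indicator_of_mem h2, indicator_of_mem h2]
      · rw [indicator_of_notMem h2, indicator_of_notMem h2]
    · rw [hfD x h]
      symm
      apply Finset.sum_eq_zero
      intro a _
      apply Finset.sum_eq_zero
      intro b _
      rw [indicator_apply]
      split_ifs
      · exact hfD x h
      · rfl
  rw [hsum]
  have hq1 : 1 ≤ ENNReal.ofReal q := by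
    rw [← ENNReal.ofReal_one]
    exact ENNReal.ofReal_le_ofReal (by linarith)
  have hme : ∀ a b : ℕ, AEStronglyMeasurable (Pool.Agent.Y250.PT.ext U fun x => (Qc N a b).indicator f x) volume :=
    fun a b => (ext_meas U _ (hfm.indicator (Qc_meas N a b))).aestronglyMeasurable
  refine (eLpNorm_sum_le (fun a _ => Finset.aestronglyMeasurable_sum _ (fun b _ => hme a b)) hq1).trans ?_
  calc ∑ a ∈ Finset.range (N + 1), eLpNorm (∑ b ∈ Finset.range (N + 1),
        Pool.Agent.Y250.PT.ext U fun x => (Qc N a b).indicator f x) (ENNReal.ofReal q) volume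
      ≤ ∑ a ∈ Finset.range (N + 1), ∑ b ∈ Finset.range (N + 1),
          eLpNorm (Pool.Agent.Y250.PT.ext U fun x => (Qc N a b).indicator f x) (ENNReal.ofReal q) volume :=
        Finset.sum_le_sum fun a _ => eLpNorm_sum_le (fun b _ => hme a b) hq1
    _ ≤ ∑ a ∈ Finset.range (N + 1), ∑ b ∈ Finset.range (N + 1),
          (C * ((((1 + n) ^ 5 * (4 * V)) ^ (θ / q) : ℝ≥0) : ℝ≥0∞) * W) :=
        Finset.sum_le_sum fun a _ => Finset.sum_le_sum fun b _ => hcell a b
    _ = (((N + 1) * ((N + 1) * (C * ((1 + n) ^ 5 * (4 * V)) ^ (θ / q))) : ℝ≥0) : ℝ≥0∞) * W := by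
        rw [Finset.sum_const, Finset.sum_const, Finset.card_range, nsmul_eq_mul, nsmul_eq_mul]
        push_cast
        ring
    _ ≤ ((4 * C * ((N + 1) ^ 2 * ((1 + n) ^ 5 * V) ^ (θ / q)) : ℝ≥0) : ℝ≥0∞) * W := by
        apply mul_le_mul' _ le_rfl
        rw [ENNReal.coe_le_coe]
        have hθq : θ / q ≤ 1 := by rw [div_le_one hq0]; linarith
        have h4 : ((1 + n) ^ 5 * (4 * V) : ℝ≥0) ^ (θ / q) ≤ 4 * ((1 + n) ^ 5 * V) ^ (θ / q) := by
          have e4 : ((1 + n) ^ 5 * (4 * V) : ℝ≥0) = 4 * ((1 + n) ^ 5 * V) := by ring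
          rw [e4, NNReal.mul_rpow]
          gcongr
          calc (4 : ℝ≥0) ^ (θ / q) ≤ 4 ^ (1 : ℝ) :=
                NNReal.rpow_le_rpow_of_exponent_le (by norm_num) hθq
            _ = 4 := NNReal.rpow_one 4
        calc ((N : ℝ≥0) + 1) * ((N + 1) * (C * ((1 + n) ^ 5 * (4 * V)) ^ (θ / q)))
            ≤ (N + 1) * ((N + 1) * (C * (4 * ((1 + n) ^ 5 * V) ^ (θ / q)))) := by gcongr
          _ = _ := by ring
    _ = _ := by
        rw [ENNReal.coe_mul, ENNReal.coe_mul]

/-- **phases with bounded derivatives of order `n + 1`** -/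
theorem smooth_lev (q θ : ℝ) (hθ1 : 1 < θ) (hθ2 : θ ≤ q - 2) : ∃ C : ℝ≥0, ∀ (n : ℕ) (φ : ℝ × ℝ → ℝ)
    (M : ℝ≥0) (g : ℝ × ℝ → ℂ) (V : ℝ≥0), 1 ≤ n → ContDiff ℝ (n + 1 : ℕ) φ →
      (∀ i j, i + j = n + 1 → ∀ x ∈ Dk, |J φ i j x| ≤ M) → Amp g V → 1 ≤ V → (∀ z, ‖g z‖ ≤ 1) →
      eLpNorm (Pool.Agent.Y250.PT.ext univ fun x => cexp (I * (φ x : ℂ)) * g x) (ENNReal.ofReal q) volume ≤
        C * ((1 + (M / n.factorial) ^ ((2 : ℝ) / n)) * ((1 + n) ^ 5 * V) ^ (θ / q) : ℝ≥0) *
          eLpNorm g 1 volume ^ ((q - 1 - θ) / q) := by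
  obtain ⟨C, hC⟩ := cells_lev q θ hθ1 hθ2
  refine ⟨18 * C, ?_⟩
  intro n φ M g V hn hφ hJ hg hV1 hg1
  have hn' : (0 : ℝ) < n := by exact_mod_cast hn
  set X : ℝ≥0 := (M / n.factorial) ^ ((1 : ℝ) / n) with hX
  set N : ℕ := ⌈2 * X⌉₊ + 1 with hN
  have hX2 : X ^ 2 = (M / n.factorial) ^ ((2 : ℝ) / n) := by
    rw [hX, ← NNReal.rpow_natCast, ← NNReal.rpow_mul]
    congr 1
    push_cast
    ring
  have hXn : (X : ℝ) ^ n = M / n.factorial := by
    have h1 : X ^ n = M / n.factorial := by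
      rw [hX, ← NNReal.rpow_natCast, ← NNReal.rpow_mul, one_div_mul_cancel hn'.ne', NNReal.rpow_one]
    have h2 := congrArg (fun x : ℝ≥0 => (x : ℝ)) h1
    simp only [NNReal.coe_pow, NNReal.coe_div, NNReal.coe_natCast] at h2
    exact h2
  have hN0 : 0 < N := by omega
  have hN0' : (0 : ℝ) < N := by exact_mod_cast hN0
  have hN1 : (2 * X : ℝ) ≤ N := by
    have h1 : 2 * X ≤ (⌈2 * X⌉₊ : ℝ≥0) := Nat.le_ceil _
    have h2 : (2 * X : ℝ) ≤ (⌈2 * X⌉₊ : ℝ) := by exact_mod_cast h1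
    rw [hN]
    push_cast
    linarith
  have hN2 : (N : ℝ≥0) ≤ 2 * X + 2 := by
    have h1 : (⌈2 * X⌉₊ : ℝ≥0) < 2 * X + 1 := Nat.ceil_lt_add_one (by positivity)
    rw [hN]
    push_cast
    calc (⌈2 * X⌉₊ : ℝ≥0) + 1 ≤ (2 * X + 1) + 1 := by gcongr
      _ = _ := by ring
  have hkey : (M : ℝ) * (2 / N) ^ n / n.factorial ≤ 1 := by
    have e : (M : ℝ) * (2 / N) ^ n / n.factorial = (2 * X / N) ^ n := by
      rw [div_pow, div_pow, mul_pow, hXn]
      ring
    rw [e]
    apply pow_le_one₀ (by positivity)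
    rw [div_le_one hN0']
    exact hN1
  have h1 := hC n N φ M g V hN0 hφ M.2 hJ hkey hg hV1 hg1
  refine h1.trans ?_
  have h2 : (((N : ℝ≥0) + 1) ^ 2) ≤ 18 * (1 + (M / n.factorial) ^ ((2 : ℝ) / n)) := by
    rw [← hX2]
    have h3 : (N : ℝ≥0) + 1 ≤ 2 * X + 3 := by
      calc (N : ℝ≥0) + 1 ≤ (2 * X + 2) + 1 := by gcongr
        _ = _ := by ring
    have h4 : ((N : ℝ≥0) + 1) ^ 2 ≤ (2 * X + 3) ^ 2 := by gcongr
    refine h4.trans ?_
    rw [← NNReal.coe_le_coe]
    push_cast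
    nlinarith [sq_nonneg ((X : ℝ) - 1)]
  gcongr ?_ * _
  rw [← ENNReal.coe_mul, ← ENNReal.coe_mul, ENNReal.coe_le_coe]
  calc C * ((N + 1) ^ 2 * ((1 + n) ^ 5 * V) ^ (θ / q))
      ≤ C * ((18 * (1 + (M / n.factorial) ^ ((2 : ℝ) / n))) * ((1 + n) ^ 5 * V) ^ (θ / q)) := by gcongr
    _ = _ := by ring

end Pool.Agent.Y250.BC
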