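import Pool.Agent.Y250.PT.D
set_option autoImplicit false

/-! From superlevel sets to functions. -/

namespace Pool.Agent.Y250.BC

open MeasureTheory Set Complex Filter Topology
open scoped ENNReal NNReal
open Pool.Agent.Y250.PT (Dk Dk_meas ext_meas)

noncomputable abbrev ext := Pool.Agent.Y250.PT.ext

lemma Dk_vol : volume Dk ≤ 1 := by
  have h : Dk ⊆ Icc (-(1 / 2) : ℝ) (1 / 2) ×ˢ Icc (-(1 / 2) : ℝ) (1 / 2) := by
    intro x hx
    simp only [Dk, mem_ofPred_eq] at hx
    have h1 : |x.1| ≤ 1 / 2 := abs_le_of_sq_le_sq (by nlinarith [sq_nonneg x.2]) (by norm_num)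
    have h2 : |x.2| ≤ 1 / 2 := abs_le_of_sq_le_sq (by nlinarith [sq_nonneg x.1]) (by norm_num)
    rw [abs_le] at h1 h2
    exact ⟨⟨h1.1, h1.2⟩, ⟨h2.1, h2.2⟩⟩
  refine (measure_mono h).trans ?_
  rw [Measure.volume_eq_prod, Measure.prod_prod, Real.volume_Icc]
  norm_num

/-- Riemann sums of decreasing functions -/
lemma riem (F : ℝ → ℝ≥0∞) (hF : ∀ s t, 0 < s → s ≤ t → F t ≤ F s) (δ : ℝ) (hδ : 0 < δ) (J : ℕ) :
    ∑ j ∈ Finset.range J, ENNReal.ofReal δ * F ((j + 1) * δ) ≤ ∫⁻ s in Ioc 0 (J * δ), F s := by
  induction J with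
  | zero => simp
  | succ J ih =>
    rw [Finset.sum_range_succ]
    have e : Ioc (0 : ℝ) ((J + 1 : ℕ) * δ) = Ioc 0 (J * δ) ∪ Ioc (J * δ) ((J + 1 : ℕ) * δ) := by
      rw [Ioc_union_Ioc_eq_Ioc]
      · positivity
      · push_cast
        nlinarith
    have hd : Disjoint (Ioc (0 : ℝ) (J * δ)) (Ioc (J * δ) ((J + 1 : ℕ) * δ)) := by
      rw [Set.disjoint_left]
      intro x hx hx2
      exact absurd hx2.1 (not_lt.mpr hx.2)
    rw [e, lintegral_union measurableSet_Ioc hd]
    apply add_le_add ih
    have h0 : (0 : ℝ) ≤ J * δ := by positivity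
    calc ENNReal.ofReal δ * F ((J + 1) * δ) = ∫⁻ _s in Ioc (J * δ) ((J + 1 : ℕ) * δ), F ((J + 1) * δ) := by
          rw [setLIntegral_const, Real.volume_Ioc, mul_comm]
          congr 2
          push_cast
          ring
      _ ≤ _ := by
          apply setLIntegral_mono' measurableSet_Ioc
          intro s hs
          apply hF s _ (lt_of_le_of_lt h0 hs.1)
          have := hs.2
          push_cast at this
          exact this

/-- the tail -/
lemma tail (K r : ℝ) (hK : 0 < K) (hr : 1 < r) :
    ∫⁻ s in Ioi (0 : ℝ), ENNReal.ofReal (min 1 ((K / s) ^ r)) ≤ ENNReal.ofReal ((1 + 1 / (r - 1)) * K) := by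
  have e : Ioi (0 : ℝ) = Ioc 0 K ∪ Ioi K := (Ioc_union_Ioi_eq_Ioi hK.le).symm
  have h1 : ∫⁻ s in Ioc (0 : ℝ) K, ENNReal.ofReal (min 1 ((K / s) ^ r)) ≤ ENNReal.ofReal K := by
    calc ∫⁻ s in Ioc (0 : ℝ) K, ENNReal.ofReal (min 1 ((K / s) ^ r)) ≤ ∫⁻ _s in Ioc (0 : ℝ) K, 1 := by
          apply lintegral_mono
          intro s
          simp only
          rw [← ENNReal.ofReal_one]
          exact ENNReal.ofReal_le_ofReal (min_le_left _ _)
      _ = _ := by
          rw [setLIntegral_const, Real.volume_Ioc, one_mul, sub_zero]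
  have h2 : ∫⁻ s in Ioi K, ENNReal.ofReal (min 1 ((K / s) ^ r)) ≤ ENNReal.ofReal (K / (r - 1)) := by
    calc ∫⁻ s in Ioi K, ENNReal.ofReal (min 1 ((K / s) ^ r))
        ≤ ∫⁻ s in Ioi K, ENNReal.ofReal (K ^ r * s ^ (-r)) := by
          apply setLIntegral_mono' measurableSet_Ioi
          intro s hs
          apply ENNReal.ofReal_le_ofReal
          refine (min_le_right _ _).trans (le_of_eq ?_)
          have hs0 : 0 < s := hK.trans hs
          rw [Real.div_rpow hK.le hs0.le, Real.rpow_neg hs0.le, div_eq_mul_inv]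
      _ = ENNReal.ofReal (∫ s in Ioi K, K ^ r * s ^ (-r)) := by
          rw [ofReal_integral_eq_lintegral_ofReal]
          · exact (integrableOn_Ioi_rpow_of_lt (by linarith) hK).const_mul _
          · apply ae_restrict_of_forall_mem measurableSet_Ioi
            intro s hs
            have hs0 : 0 < s := hK.trans hs
            simp only [Pi.zero_apply]
            positivity
      _ ≤ _ := by
          apply ENNReal.ofReal_le_ofReal
          rw [integral_const_mul, integral_Ioi_rpow_of_lt (by linarith) hK]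
          apply le_of_eq
          have h3 : K ^ r * K ^ (-r + 1) = K := by
            rw [← Real.rpow_add hK]
            simp
          have h4 : r - 1 ≠ 0 := by intro h; linarith
          have h5 : -r + 1 ≠ 0 := by intro h; linarith
          calc K ^ r * (-K ^ (-r + 1) / (-r + 1)) = (K ^ r * K ^ (-r + 1)) * (-1 / (-r + 1)) := by ring
            _ = K / (r - 1) := by
                rw [h3]
                field_simp
                ring
  rw [e]
  refine (lintegral_union_le _ _ _).trans ?_
  refine (add_le_add h1 h2).trans (le_of_eq ?_)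
  have h4 : 0 < r - 1 := by linarith
  rw [← ENNReal.ofReal_add hK.le (by positivity)]
  congr 1
  ring

/-- the step functions -/
noncomputable def st (δ : ℝ) (J : ℕ) (u : ℝ) : ℝ := ∑ j ∈ Finset.range J, if (j + 1) * δ < u then δ else 0

lemma st_full (δ : ℝ) (hδ : 0 < δ) (J : ℕ) (u : ℝ) (h : J * δ < u) : st δ J u = J * δ := by
  unfold st
  have : ∀ j ∈ Finset.range J, (if ((j : ℝ) + 1) * δ < u then δ else 0) = δ := by
    intro j hj
    rw [if_pos]
    have h1 : ((j : ℝ) + 1) ≤ J := by exact_mod_cast Finset.mem_range.mp hj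
    calc ((j : ℝ) + 1) * δ ≤ J * δ := by gcongr
      _ < u := h
  rw [Finset.sum_congr rfl this]
  simp

lemma st_nonneg (δ : ℝ) (hδ : 0 < δ) (J : ℕ) (u : ℝ) : 0 ≤ st δ J u := by
  unfold st
  apply Finset.sum_nonneg
  intro j _
  split_ifs
  · exact hδ.le
  · exact le_rfl

lemma st_le (δ : ℝ) (hδ : 0 < δ) (J : ℕ) (u : ℝ) (hu : 0 ≤ u) : st δ J u ≤ u := by
  induction J with
  | zero => simpa [st] using hu
  | succ J ih =>
    by_cases h : ((J : ℝ) + 1) * δ < u
    · have h1 : ((J + 1 : ℕ) : ℝ) * δ < u := by push_cast; exact h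
      rw [st_full δ hδ (J + 1) u h1]
      exact h1.le
    · have e : st δ (J + 1) u = st δ J u := by
        unfold st
        rw [Finset.sum_range_succ, if_neg h, add_zero]
      rw [e]
      exact ih

lemma st_ge (δ : ℝ) (hδ : 0 < δ) (J : ℕ) (u : ℝ) (hu : u ≤ (J + 1) * δ) : u - δ ≤ st δ J u := by
  induction J with
  | zero =>
    have : u ≤ δ := by simpa using hu
    simpa [st] using this
  | succ J ih =>
    by_cases h : ((J : ℝ) + 1) * δ < u
    · have h1 : ((J + 1 : ℕ) : ℝ) * δ < u := by push_cast; exact h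
      rw [st_full δ hδ (J + 1) u h1]
      push_cast at hu ⊢
      linarith
    · have e : st δ (J + 1) u = st δ J u := by
        unfold st
        rw [Finset.sum_range_succ, if_neg h, add_zero]
      rw [e]
      exact ih (not_lt.mp h)

lemma st_tendsto (u : ℝ) (hu : 0 ≤ u) :
    Tendsto (fun n : ℕ => st ((1 / 2) ^ n) (4 ^ n) u) atTop (𝓝 u) := by
  have hδ : ∀ n : ℕ, (0 : ℝ) < (1 / 2) ^ n := fun n => by positivity
  have h1 : Tendsto (fun n : ℕ => u - (1 / 2 : ℝ) ^ n) atTop (𝓝 u) := by
    have := tendsto_pow_atTop_nhds_zero_of_lt_one (r := (1 / 2 : ℝ)) (by norm_num) (by norm_num)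
    simpa using this.const_sub u
  apply tendsto_of_tendsto_of_tendsto_of_le_of_le' h1 tendsto_const_nhds
  · obtain ⟨m, hm⟩ := pow_unbounded_of_one_lt u (show (1 : ℝ) < 2 by norm_num)
    filter_upwards [eventually_ge_atTop m] with n hn
    apply st_ge _ (hδ n)
    have h2 : (2 : ℝ) ^ m ≤ 2 ^ n := pow_le_pow_right₀ (by norm_num) hn
    have h3 : (((4 ^ n : ℕ) : ℝ) + 1) * (1 / 2) ^ n = 2 ^ n + (1 / 2) ^ n := by
      push_cast
      rw [add_mul, one_mul, ← mul_pow]
      norm_num
    rw [h3]
    linarith [hδ n]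
  · exact Eventually.of_forall fun n => st_le _ (hδ n) _ u hu

lemma st_meas (δ : ℝ) (J : ℕ) : Measurable (st δ J) := by
  unfold st
  apply Finset.measurable_sum
  intro j _
  exact Measurable.ite measurableSet_Ioi measurable_const measurable_const

/-- **from superlevel sets to functions** -/
theorem layer (q p β : ℝ) (hq : 1 ≤ q) (hp : 1 ≤ p) (hβ : 0 < β) (hpβ : 1 < p * β) : ∃ C : ℝ≥0,
    ∀ (w : ℝ × ℝ → ℂ) (h : ℝ × ℝ → ℝ) (A : ℝ≥0∞), Measurable w → (∀ x, ‖w x‖ ≤ 1) →
      Measurable h → (∀ x, 0 ≤ h x) → (∀ x, x ∉ Dk → h x = 0) →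
      eLpNorm h (ENNReal.ofReal p) volume ≠ ⊤ →
      (∀ s : ℝ, 0 < s → eLpNorm (ext univ fun x => w x * ({x | s < h x}.indicator (fun _ => (1 : ℂ)) x))
        (ENNReal.ofReal q) volume ≤ A * volume {x | s < h x} ^ β) →
      eLpNorm (ext univ fun x => w x * (h x : ℂ)) (ENNReal.ofReal q) volume ≤
        C * A * eLpNorm h (ENNReal.ofReal p) volume := by
  have hp0 : 0 < p := by linarith
  refine ⟨(1 + 1 / (p * β - 1)).toNNReal, ?_⟩
  intro w h A hw hw1 hh hh0 hhD hfin hlev
  have hq1 : 1 ≤ ENNReal.ofReal q := by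
    rw [← ENNReal.ofReal_one]
    exact ENNReal.ofReal_le_ofReal hq
  set K0 : ℝ≥0∞ := eLpNorm h (ENNReal.ofReal p) volume with hK0
  rcases eq_or_ne K0 0 with hz | hz
  · have h1 : h =ᵐ[volume] 0 := by
      rw [hK0, eLpNorm_eq_zero_iff hh.aestronglyMeasurable (by simpa using hp0)] at hz
      exact hz
    have e : (ext univ fun x => w x * (h x : ℂ)) = fun _ => 0 := by
      ext ξ
      unfold ext Pool.Agent.Y250.PT.ext
      rw [Measure.restrict_univ, ← integral_zero (ℝ × ℝ) ℂ (μ := (volume : Measure (ℝ × ℝ)))]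
      apply integral_congr_ae
      filter_upwards [h1] with x hx
      rw [hx]
      simp
    rw [e]
    simp
  set K : ℝ := K0.toReal with hK
  have hKp : 0 < K := ENNReal.toReal_pos hz hfin
  have hKe : ENNReal.ofReal K = K0 := ENNReal.ofReal_toReal hfin
  -- the superlevel sets
  have hvol : ∀ s : ℝ, 0 < s → volume {x | s < h x} ^ β ≤ ENNReal.ofReal (min 1 ((K / s) ^ (p * β))) := by
    intro s hs
    have h1 : volume {x | s < h x} ≤ 1 := by
      refine (measure_mono ?_).trans Dk_vol
      intro x hx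
      by_contra hc
      have h2 : s < h x := hx
      rw [hhD x hc] at h2
      linarith
    have h2 : volume {x | s < h x} ≤ ENNReal.ofReal ((K / s) ^ p) := by
      have h3 := meas_ge_le_mul_pow_eLpNorm_enorm (volume : Measure (ℝ × ℝ)) (p := ENNReal.ofReal p)
        (by simpa using hp0) ENNReal.ofReal_ne_top hh.aestronglyMeasurable
        (ε := ENNReal.ofReal s) (by simpa using hs) (fun h => absurd h ENNReal.ofReal_ne_top)
      rw [ENNReal.toReal_ofReal hp0.le, ← hK0, ← hKe] at h3
      refine (measure_mono ?_).trans (h3.trans (le_of_eq ?_))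
      · intro x hx
        have h4 : s < h x := hx
        show ENNReal.ofReal s ≤ ‖h x‖ₑ
        rw [← ofReal_norm, Real.norm_eq_abs]
        apply ENNReal.ofReal_le_ofReal
        exact h4.le.trans (le_abs_self _)
      · rw [← ENNReal.ofReal_inv_of_pos hs, ← ENNReal.mul_rpow_of_nonneg _ _ hp0.le,
          ← ENNReal.ofReal_mul (by positivity), ENNReal.ofReal_rpow_of_nonneg (by positivity) hp0.le]
        congr 2
        ring
    have h3 : ENNReal.ofReal (min 1 ((K / s) ^ (p * β))) =
        min 1 (ENNReal.ofReal ((K / s) ^ p) ^ β) := by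
      rw [ENNReal.ofReal_rpow_of_nonneg (by positivity) hβ.le, ← Real.rpow_mul (by positivity),
        ← ENNReal.ofReal_one, ENNReal.ofReal_min]
    rw [h3]
    apply le_min
    · calc volume {x | s < h x} ^ β ≤ 1 ^ β := by gcongr
        _ = 1 := ENNReal.one_rpow β
    · gcongr
  -- the approximation
  set f : ℕ → ℝ × ℝ → ℂ := fun n x => w x * ((st ((1 / 2) ^ n) (4 ^ n) (h x) : ℝ) : ℂ) with hf
  have hint : Integrable h volume := by
    have h1 : MemLp h (ENNReal.ofReal p) volume := ⟨hh.aestronglyMeasurable, lt_top_iff_ne_top.mpr hfin⟩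
    have hfm : IsFiniteMeasure ((volume : Measure (ℝ × ℝ)).restrict Dk) := ⟨by
      rw [Measure.restrict_apply_univ]
      exact lt_of_le_of_lt Dk_vol (by norm_num)⟩
    have h2 : IntegrableOn h Dk volume := by
      have h3 := MemLp.mono_exponent (p := 1) (q := ENNReal.ofReal p) (h1.restrict Dk) (by
        rw [← ENNReal.ofReal_one]
        exact ENNReal.ofReal_le_ofReal hp)
      exact memLp_one_iff_integrable.mp h3
    rwa [integrableOn_iff_integrable_of_support_subset] at h2
    intro x hx
    by_contra hc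
    exact hx (hhD x hc)
  have hfb : ∀ n x, ‖f n x‖ ≤ h x := by
    intro n x
    simp only [hf]
    rw [norm_mul, Complex.norm_real, Real.norm_eq_abs, abs_of_nonneg (st_nonneg _ (by positivity) _ _)]
    calc ‖w x‖ * st ((1 / 2) ^ n) (4 ^ n) (h x) ≤ 1 * h x :=
          mul_le_mul (hw1 x) (st_le _ (by positivity) _ _ (hh0 x)) (st_nonneg _ (by positivity) _ _)
            zero_le_one
      _ = h x := one_mul _
  have hfm : ∀ n, Measurable (f n) := by
    intro n
    exact hw.mul (Complex.measurable_ofReal.comp ((st_meas _ _).comp hh))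
  have hlim : ∀ ξ, Tendsto (fun n => ext univ (f n) ξ) atTop (𝓝 (ext univ (fun x => w x * (h x : ℂ)) ξ)) := by
    intro ξ
    unfold ext Pool.Agent.Y250.PT.ext
    rw [Measure.restrict_univ]
    apply tendsto_integral_of_dominated_convergence h
    · intro n
      apply Measurable.aestronglyMeasurable
      apply Measurable.mul _ (hfm n)
      apply Continuous.measurable
      fun_prop
    · exact hint
    · intro n
      refine ae_of_all _ fun x => ?_
      rw [norm_mul, ← Complex.ofReal_neg, Complex.norm_exp_ofReal_mul_I, one_mul]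
      exact hfb n x
    · refine ae_of_all _ fun x => ?_
      apply Tendsto.const_mul
      simp only [hf]
      apply Tendsto.const_mul
      exact (Complex.continuous_ofReal.tendsto _).comp (st_tendsto (h x) (hh0 x))
  have hbd : ∀ n, eLpNorm (ext univ (f n)) (ENNReal.ofReal q) volume ≤
      ((1 + 1 / (p * β - 1)).toNNReal : ℝ≥0∞) * A * K0 := by
    intro n
    set δ : ℝ := (1 / 2) ^ n with hδ
    have hδ0 : 0 < δ := by rw [hδ]; positivity
    set J : ℕ := 4 ^ n with hJ
    have hterm : ∀ j : ℕ, Integrable fun x => w x * ({x | ((j : ℝ) + 1) * δ < h x}.indicator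
        (fun _ => (1 : ℂ)) x) := by
      intro j
      have hm : MeasurableSet {x | ((j : ℝ) + 1) * δ < h x} := measurableSet_lt measurable_const hh
      have hvf : volume {x | ((j : ℝ) + 1) * δ < h x} ≠ ∞ := by
        refine ne_of_lt (lt_of_le_of_lt (b := (1 : ℝ≥0∞)) ?_ (by norm_num))
        refine (measure_mono ?_).trans Dk_vol
        intro x hx
        by_contra hc
        have h2 : ((j : ℝ) + 1) * δ < h x := hx
        rw [hhD x hc] at h2
        have : 0 < ((j : ℝ) + 1) * δ := by positivity
        linarith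
      have hone : ‖(1 : ℂ)‖ₑ ≠ ∞ := by simp
      apply Integrable.bdd_mul (c := 1) _ hw.aestronglyMeasurable (ae_of_all _ hw1)
      rw [integrable_indicator_iff hm]
      exact integrableOn_const hvf hone
    have hsum : ext univ (f n) = ∑ j ∈ Finset.range J, fun ξ => (δ : ℂ) * ext univ (fun x => w x *
        ({x | ((j : ℝ) + 1) * δ < h x}.indicator (fun _ => (1 : ℂ)) x)) ξ := by
      ext ξ
      simp only [Finset.sum_apply]
      unfold ext Pool.Agent.Y250.PT.ext
      rw [Measure.restrict_univ]
      simp_rw [← integral_const_mul]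
      rw [← integral_finsetSum]
      · congr 1
        ext x
        simp only [hf, st]
        push_cast
        rw [Finset.mul_sum, Finset.mul_sum]
        apply Finset.sum_congr rfl
        intro j _
        by_cases hj : ((j : ℝ) + 1) * δ < h x
        · rw [if_pos hj, indicator_of_mem (show x ∈ {x | ((j : ℝ) + 1) * δ < h x} from hj)]
          ring
        · rw [if_neg hj, indicator_of_notMem (show x ∉ {x | ((j : ℝ) + 1) * δ < h x} from hj)]
          simp
      · intro j _
        apply Integrable.const_mul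
        apply (hterm j).bdd_mul (c := 1)
        · apply Continuous.aestronglyMeasurable
          fun_prop
        · exact ae_of_all _ fun x => by rw [← Complex.ofReal_neg, Complex.norm_exp_ofReal_mul_I]
    have hme : ∀ j : ℕ, Measurable (ext univ (fun x => w x *
        ({x | ((j : ℝ) + 1) * δ < h x}.indicator (fun _ => (1 : ℂ)) x))) := by
      intro j
      apply ext_meas
      exact hw.mul (measurable_const.indicator (measurableSet_lt measurable_const hh))
    rw [hsum]
    refine (eLpNorm_sum_le (fun j _ => ((hme j).const_mul _).aestronglyMeasurable) hq1).trans ?_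
    calc ∑ j ∈ Finset.range J, eLpNorm (fun ξ => (δ : ℂ) * ext univ (fun x => w x *
          ({x | ((j : ℝ) + 1) * δ < h x}.indicator (fun _ => (1 : ℂ)) x)) ξ) (ENNReal.ofReal q) volume
        ≤ ∑ j ∈ Finset.range J, A * (ENNReal.ofReal δ *
            ENNReal.ofReal (min 1 ((K / (((j : ℝ) + 1) * δ)) ^ (p * β)))) := by
          apply Finset.sum_le_sum
          intro j _
          have hj0 : 0 < ((j : ℝ) + 1) * δ := by positivity
          have h1 := hlev (((j : ℝ) + 1) * δ) hj0
          have h2 := eLpNorm_const_smul (δ : ℂ) (ext univ (fun x => w x *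
            ({x | ((j : ℝ) + 1) * δ < h x}.indicator (fun _ => (1 : ℂ)) x))) (ENNReal.ofReal q)
            (volume : Measure (ℝ × ℝ × ℝ))
          have h3 : ‖(δ : ℂ)‖ₑ = ENNReal.ofReal δ := by
            rw [← ofReal_norm, Complex.norm_real, Real.norm_eq_abs, abs_of_pos hδ0]
          rw [h3] at h2
          refine (le_of_eq h2).trans ?_
          calc ENNReal.ofReal δ * eLpNorm (ext univ (fun x => w x *
                ({x | ((j : ℝ) + 1) * δ < h x}.indicator (fun _ => (1 : ℂ)) x))) (ENNReal.ofReal q) volume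
              ≤ ENNReal.ofReal δ * (A * ENNReal.ofReal (min 1 ((K / (((j : ℝ) + 1) * δ)) ^ (p * β)))) := by
                gcongr
                refine h1.trans ?_
                gcongr
                exact hvol _ hj0
            _ = _ := by ring
      _ = A * ∑ j ∈ Finset.range J, ENNReal.ofReal δ *
            ENNReal.ofReal (min 1 ((K / (((j : ℝ) + 1) * δ)) ^ (p * β))) := by
          rw [Finset.mul_sum]
      _ ≤ A * ∫⁻ s in Ioc 0 (J * δ), ENNReal.ofReal (min 1 ((K / s) ^ (p * β))) := by
          gcongr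
          apply riem (fun s => ENNReal.ofReal (min 1 ((K / s) ^ (p * β)))) _ δ hδ0 J
          intro s t hs hst
          apply ENNReal.ofReal_le_ofReal
          apply min_le_min_left
          have ht : 0 < t := lt_of_lt_of_le hs hst
          apply Real.rpow_le_rpow (by positivity) _ (by linarith)
          gcongr
      _ ≤ A * ∫⁻ s in Ioi 0, ENNReal.ofReal (min 1 ((K / s) ^ (p * β))) := by
          gcongr
          exact fun s hs => hs.1
      _ ≤ A * ENNReal.ofReal ((1 + 1 / (p * β - 1)) * K) := by
          gcongr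
          exact tail K (p * β) hKp hpβ
      _ = _ := by
          have h4 : 0 < p * β - 1 := by linarith
          rw [ENNReal.ofReal_mul (by positivity), hKe]
          rw [ENNReal.ofReal]
          ring
  have h9 := Lp.eLpNorm_lim_le_liminf_eLpNorm (f := fun n => ext univ (f n))
    (fun n => (ext_meas univ (f n) (hfm n)).aestronglyMeasurable)
    (ext univ (fun x => w x * (h x : ℂ))) (p := ENNReal.ofReal q) (μ := volume)
    (ae_of_all _ hlim)
  exact h9.trans (liminf_le_of_frequently_le' (Frequently.of_forall hbd))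

end Pool.Agent.Y250.BC
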