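import Pool.Agent.Y250.BC.B
import Pool.Agent.Y250.BC.C
set_option autoImplicit false

/-! The exact inequality for functions of bounded complexity. -/

namespace Pool.Agent.Y250.BC

open MeasureTheory Set Complex Filter Topology
open scoped ENNReal NNReal
open Pool.Agent.Y250.PT (Amp Var Dk Dk_meas J ext_meas ind_var var_mul)

/-- `S` is a union of at most `N` intervals -/
def Ivs (N : ℕ) (S : Set ℝ) : Prop := ∃ I : Fin N → Set ℝ, (∀ i, (I i).OrdConnected) ∧ S = ⋃ i, I i

/-- horizontal and vertical lines meet `S` in at most `N` intervals -/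
def LC (N : ℕ) (S : Set (ℝ × ℝ)) : Prop :=
  (∀ y, Ivs N {x | (x, y) ∈ S}) ∧ ∀ x, Ivs N {y | (x, y) ∈ S}

lemma compl_var (A : Set ℝ) (V : ℝ≥0∞) (h : eVariationOn (A.indicator fun _ => (1 : ℂ)) univ ≤ V) :
    eVariationOn (Aᶜ.indicator fun _ => (1 : ℂ)) univ ≤ V := by
  have e : ∀ x, Aᶜ.indicator (fun _ => (1 : ℂ)) x = 1 - A.indicator (fun _ => (1 : ℂ)) x := by
    intro x
    by_cases hx : x ∈ A
    · rw [indicator_of_mem hx, indicator_of_notMem (show x ∉ Aᶜ from fun h => h hx), sub_self]
    · rw [indicator_of_notMem hx, indicator_of_mem (show x ∈ Aᶜ from hx), sub_zero]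
  have e2 : ∀ x y, edist (Aᶜ.indicator (fun _ => (1 : ℂ)) x) (Aᶜ.indicator (fun _ => (1 : ℂ)) y) =
      edist (A.indicator (fun _ => (1 : ℂ)) x) (A.indicator (fun _ => (1 : ℂ)) y) := by
    intro x y
    rw [e, e, edist_sub_left]
  refine le_trans (le_of_eq ?_) h
  simp only [eVariationOn, e2]

lemma union_var (N : ℕ) : ∀ I : Fin N → Set ℝ, (∀ i, (I i).OrdConnected) →
    eVariationOn ((⋃ i, I i).indicator fun _ => (1 : ℂ)) univ ≤ 2 * N := by
  have hn : ∀ (S : Set ℝ) (x : ℝ), ‖S.indicator (fun _ => (1 : ℂ)) x‖ ≤ (1 : ℝ≥0) := by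
    intro S x
    by_cases hx : x ∈ S
    · simp [indicator_of_mem hx]
    · simp [indicator_of_notMem hx]
  induction N with
  | zero =>
    intro I _
    have e : (⋃ i, I i) = ∅ := by
      rw [iUnion_eq_empty]
      exact fun i => i.elim0
    rw [e, indicator_empty, eVariationOn.constant_on]
    · exact zero_le
    · intro a ha b hb
      obtain ⟨_, _, rfl⟩ := ha
      obtain ⟨_, _, rfl⟩ := hb
      rfl
  | succ N ih =>
    intro I hI
    set A : Set ℝ := ⋃ i : Fin N, I i.castSucc with hA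
    have hAI : (⋃ i, I i) = A ∪ I (Fin.last N) := by
      ext x
      simp only [hA, mem_iUnion, mem_union]
      constructor
      · rintro ⟨i, hi⟩
        rcases Fin.eq_castSucc_or_eq_last i with ⟨j, rfl⟩ | rfl
        · exact Or.inl ⟨j, hi⟩
        · exact Or.inr hi
      · rintro (⟨j, hj⟩ | h)
        · exact ⟨_, hj⟩
        · exact ⟨_, h⟩
    have h1 := compl_var A _ (ih (fun i => I i.castSucc) fun i => hI _)
    have h2 := compl_var _ _ (ind_var (I (Fin.last N)) (hI _))
    have h3 := var_mul (Aᶜ.indicator fun _ => (1 : ℂ)) ((I (Fin.last N))ᶜ.indicator fun _ => (1 : ℂ)) 1 1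
      (hn _) (hn _)
    have e : (fun x => Aᶜ.indicator (fun _ => (1 : ℂ)) x * (I (Fin.last N))ᶜ.indicator (fun _ => (1 : ℂ)) x) =
        (A ∪ I (Fin.last N))ᶜ.indicator fun _ => (1 : ℂ) := by
      ext x
      by_cases a1 : x ∈ A
      · rw [indicator_of_notMem (show x ∉ Aᶜ from fun h => h a1),
          indicator_of_notMem (show x ∉ (A ∪ I (Fin.last N))ᶜ from fun h => h (Or.inl a1)), zero_mul]
      · by_cases a2 : x ∈ I (Fin.last N)
        · rw [indicator_of_notMem (show x ∉ (I (Fin.last N))ᶜ from fun h => h a2),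
            indicator_of_notMem (show x ∉ (A ∪ I (Fin.last N))ᶜ from fun h => h (Or.inr a2)), mul_zero]
        · rw [indicator_of_mem (show x ∈ Aᶜ from a1), indicator_of_mem (show x ∈ (I (Fin.last N))ᶜ from a2),
            indicator_of_mem (show x ∈ (A ∪ I (Fin.last N))ᶜ from fun h => h.elim a1 a2), one_mul]
    rw [e] at h3
    have h4 := compl_var _ _ h3
    rw [compl_compl, ← hAI] at h4
    refine h4.trans ?_
    rw [ENNReal.coe_one, one_mul, one_mul]
    calc _ ≤ (2 * (N : ℝ≥0∞)) + 2 := by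
          first
            | exact add_le_add h1 h2
            | exact (add_le_add h2 h1).trans (le_of_eq (add_comm _ _))
      _ = 2 * ((N + 1 : ℕ) : ℝ≥0∞) := by
          push_cast
          ring

lemma ivs_var (N : ℕ) (S : Set ℝ) (h : Ivs N S) :
    eVariationOn (S.indicator fun _ => (1 : ℂ)) univ ≤ 2 * N := by
  obtain ⟨I, hI, rfl⟩ := h
  exact union_var N I hI

/-- indicator functions of sets of bounded complexity -/
lemma lc_amp (N : ℕ) (S : Set (ℝ × ℝ)) (hS : MeasurableSet S) (hSD : S ⊆ Dk) (h : LC N S) :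
    Amp (S.indicator fun _ => (1 : ℂ)) (2 * N) := by
  refine ⟨measurable_const.indicator hS, ?_, ?_, ?_⟩
  · intro x hx
    apply indicator_of_notMem
    intro hc
    have := hSD hc
    simp only [Dk, mem_ofPred_eq] at this
    linarith
  · intro y
    have e : (fun x => S.indicator (fun _ => (1 : ℂ)) (x, y)) = {x | (x, y) ∈ S}.indicator fun _ => 1 := by
      ext x
      by_cases hx : (x, y) ∈ S
      · rw [indicator_of_mem hx, indicator_of_mem (show x ∈ {x | (x, y) ∈ S} from hx)]
      · rw [indicator_of_notMem hx, indicator_of_notMem (show x ∉ {x | (x, y) ∈ S} from hx)]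
    rw [e]
    exact_mod_cast ivs_var N _ (h.1 y)
  · intro x
    have e : (fun y => S.indicator (fun _ => (1 : ℂ)) (x, y)) = {y | (x, y) ∈ S}.indicator fun _ => 1 := by
      ext y
      by_cases hx : (x, y) ∈ S
      · rw [indicator_of_mem hx, indicator_of_mem (show y ∈ {y | (x, y) ∈ S} from hx)]
      · rw [indicator_of_notMem hx, indicator_of_notMem (show y ∉ {y | (x, y) ∈ S} from hx)]
    rw [e]
    exact_mod_cast ivs_var N _ (h.2 x)

end Pool.Agent.Y250.BC
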