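import Pool.Agent.Y250.BC.E
set_option autoImplicit false

/-! The exact inequality for functions of bounded complexity: the theorem. -/

namespace Pool.Agent.Y250.BC

open MeasureTheory Set Complex Filter Topology
open scoped ENNReal NNReal
open Pool.Agent.Y250.PT (Amp Var Dk Dk_meas J ext_meas)

lemma ext_int (f : ℝ × ℝ → ℂ) (hf : Integrable f) (ξ : ℝ × ℝ × ℝ) : Integrable fun x : ℝ × ℝ =>
    cexp (-((x.1 * ξ.1 + x.2 * ξ.2.1 + (x.1 ^ 2 + x.2 ^ 2) * ξ.2.2 : ℝ) : ℂ) * I) * f x := by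
  apply hf.bdd_mul (c := 1)
  · apply Continuous.aestronglyMeasurable
    fun_prop
  · exact ae_of_all _ fun x => by rw [← Complex.ofReal_neg, Complex.norm_exp_ofReal_mul_I]

lemma ext_lin (q : ℝ≥0∞) (hq : 1 ≤ q) (f1 f2 : ℝ × ℝ → ℂ) (c : ℂ) (hc : ‖c‖ ≤ 1) (h1 : Integrable f1)
    (h2 : Integrable f2) (m1 : Measurable f1) (m2 : Measurable f2) :
    eLpNorm (ext univ fun x => f1 x + c * f2 x) q volume ≤
      eLpNorm (ext univ f1) q volume + eLpNorm (ext univ f2) q volume := by
  have e : (ext univ fun x => f1 x + c * f2 x) = (ext univ f1) + (c • ext univ f2) := by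
    ext ξ
    simp only [Pi.add_apply, Pi.smul_apply, smul_eq_mul]
    unfold ext Pool.Agent.Y250.PT.ext
    rw [Measure.restrict_univ, ← integral_const_mul, ← integral_add (ext_int f1 h1 ξ)
      ((ext_int f2 h2 ξ).const_mul c)]
    congr 1
    ext x
    ring
  have hm2 : Measurable (c • ext univ f2) := (ext_meas univ f2 m2).const_smul c
  rw [e]
  refine (eLpNorm_add_le (ext_meas univ f1 m1).aestronglyMeasurable hm2.aestronglyMeasurable hq).trans ?_
  gcongr
  rw [eLpNorm_const_smul]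
  calc ‖c‖ₑ * eLpNorm (ext univ f2) q volume ≤ 1 * eLpNorm (ext univ f2) q volume := by
        gcongr
        rw [← ofReal_norm, ← ENNReal.ofReal_one]
        exact ENNReal.ofReal_le_ofReal hc
    _ = _ := one_mul _

/-- functions of bounded complexity -/
structure Tame (N : ℕ) (g : ℝ × ℝ → ℂ) : Prop where
  meas : Measurable g
  supp : ∀ x, x ∉ Dk → g x = 0
  lev : ∀ s : ℝ, 0 < s → LC N {x | s < (g x).re} ∧ LC N {x | (g x).re < -s} ∧
    LC N {x | s < (g x).im} ∧ LC N {x | (g x).im < -s}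

/-- one nonnegative function -/
theorem one_part (q p κ : ℝ) (hq : 3 < q) (hp : q / (q - 2) < p) (hκ : 1 / q < κ) : ∃ C : ℝ≥0,
    ∀ (n : ℕ) (φ : ℝ × ℝ → ℝ) (M : ℝ≥0) (N : ℕ) (h : ℝ × ℝ → ℝ), 1 ≤ n → ContDiff ℝ (n + 1 : ℕ) φ →
      (∀ i j, i + j = n + 1 → ∀ x ∈ Dk, |J φ i j x| ≤ M) → 1 ≤ N → Measurable h → (∀ x, 0 ≤ h x) →
      (∀ x, x ∉ Dk → h x = 0) → (∀ s : ℝ, 0 < s → LC N {x | s < h x}) →
      eLpNorm h (ENNReal.ofReal p) volume ≠ ⊤ →
      eLpNorm (ext univ fun x => cexp (I * (φ x : ℂ)) * (h x : ℂ)) (ENNReal.ofReal q) volume ≤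
        C * ((1 + (M / n.factorial) ^ ((2 : ℝ) / n)) * ((1 + n) ^ 5 * N) ^ κ : ℝ≥0) *
          eLpNorm h (ENNReal.ofReal p) volume := by
  have hq0 : 0 < q := by linarith
  have hq2 : 0 < q - 2 := by linarith
  have hp1 : 1 < p := lt_of_le_of_lt (by rw [le_div_iff₀ hq2]; linarith) hp
  have hp0 : 0 < p := by linarith
  have hqp : q / p < q - 2 := by
    rw [div_lt_iff₀ hp0]
    rw [div_lt_iff₀ hq2] at hp
    linarith
  have hqp0 : 0 < q / p := by positivity
  have hκq : 1 < κ * q := by rwa [div_lt_iff₀ hq0] at hκ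
  have hκ0 : 0 < κ := lt_trans (by positivity) hκ
  set θ : ℝ := min (κ * q) (min ((1 + (q - 1 - q / p)) / 2) (q - 2)) with hθ
  have hθ1 : 1 < θ := by
    rw [hθ]
    apply lt_min hκq
    apply lt_min
    · linarith
    · linarith
  have hθ2 : θ ≤ q - 2 := (min_le_right _ _).trans (min_le_right _ _)
  have hθ3 : θ / q ≤ κ := by
    rw [div_le_iff₀ hq0]
    exact min_le_left _ _
  have hθ4 : θ < q - 1 - q / p := by
    have h1 : θ ≤ (1 + (q - 1 - q / p)) / 2 := (min_le_right _ _).trans (min_le_left _ _)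
    linarith
  set β : ℝ := (q - 1 - θ) / q with hβ
  have hβ0 : 0 < β := by
    rw [hβ]
    apply div_pos _ hq0
    linarith
  have hpβ : 1 < p * β := by
    rw [hβ, ← mul_div_assoc, lt_div_iff₀ hq0]
    have h1 : q / p < q - 1 - θ := by linarith
    rw [div_lt_iff₀ hp0] at h1
    linarith
  obtain ⟨C1, hC1⟩ := smooth_lev q θ hθ1 hθ2
  obtain ⟨C2, hC2⟩ := layer q p β (by linarith) hp1.le hβ0 hpβ
  refine ⟨C2 * (C1 * 2 ^ κ), ?_⟩
  intro n φ M N h hn hφ hJ hN hh hh0 hhD hlc hfin
  have hN1 : (1 : ℝ≥0) ≤ N := by exact_mod_cast hN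
  have hφc : Continuous φ := hφ.continuous
  have hwm : Measurable fun x => cexp (I * (φ x : ℂ)) := by
    apply Continuous.measurable
    fun_prop
  set L : ℝ≥0 := (1 + (M / n.factorial) ^ ((2 : ℝ) / n)) * ((1 + n) ^ 5 * (2 * N)) ^ (θ / q) with hL
  have h1 := hC2 (fun x => cexp (I * (φ x : ℂ))) h (C1 * L : ℝ≥0) hwm
    (fun x => by rw [mul_comm I, Complex.norm_exp_ofReal_mul_I]) hh hh0 hhD hfin ?_
  · refine h1.trans ?_
    gcongr ?_ * _
    rw [← ENNReal.coe_mul, ← ENNReal.coe_mul, ENNReal.coe_le_coe]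
    have h2 : ((1 + n) ^ 5 * (2 * N) : ℝ≥0) ^ (θ / q) ≤ 2 ^ κ * ((1 + n) ^ 5 * N) ^ κ := by
      rw [← NNReal.mul_rpow]
      have e : (2 * ((1 + n) ^ 5 * N) : ℝ≥0) = (1 + n) ^ 5 * (2 * N) := by ring
      rw [e]
      apply NNReal.rpow_le_rpow_of_exponent_le _ hθ3
      calc (1 : ℝ≥0) = 1 ^ 5 * (1 * 1) := by norm_num
        _ ≤ (1 + n) ^ 5 * (2 * N) := by
            gcongr
            · exact le_add_of_nonneg_right zero_le
            · norm_num
    calc C2 * (C1 * L) = C2 * (C1 * ((1 + (M / n.factorial) ^ ((2 : ℝ) / n)) *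
          ((1 + n) ^ 5 * (2 * N)) ^ (θ / q))) := by rw [hL]
      _ ≤ C2 * (C1 * ((1 + (M / n.factorial) ^ ((2 : ℝ) / n)) * (2 ^ κ * ((1 + n) ^ 5 * N) ^ κ))) := by
          gcongr
      _ = _ := by ring
  · intro s hs
    set S : Set (ℝ × ℝ) := {x | s < h x} with hS
    have hSm : MeasurableSet S := measurableSet_lt measurable_const hh
    have hSD : S ⊆ Dk := by
      intro x hx
      by_contra hc
      have h2 : s < h x := hx
      rw [hhD x hc] at h2
      linarith
    have h3 := hC1 n φ M (S.indicator fun _ => (1 : ℂ)) (2 * N) hn hφ hJ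
      (lc_amp N S hSm hSD (hlc s hs)) (by
        calc (1 : ℝ≥0) = 1 * 1 := by norm_num
          _ ≤ 2 * N := by
              gcongr
              norm_num) (fun z => by
        by_cases hz : z ∈ S
        · rw [indicator_of_mem hz]; simp
        · rw [indicator_of_notMem hz]; simp)
    have h4 : eLpNorm (S.indicator fun _ => (1 : ℂ)) 1 volume = volume S := by
      rw [eLpNorm_indicator_const hSm one_ne_zero ENNReal.one_ne_top]
      simp
    rw [h4] at h3
    refine h3.trans (le_of_eq ?_)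
    rw [ENNReal.coe_mul C1 L]

/-- **functions of bounded complexity** -/
theorem main (q p κ : ℝ) (hq : 3 < q) (hp : q / (q - 2) < p) (hκ : 1 / q < κ) : ∃ C : ℝ≥0,
    ∀ (n : ℕ) (φ : ℝ × ℝ → ℝ) (M : ℝ≥0) (N : ℕ) (g : ℝ × ℝ → ℂ), 1 ≤ n → ContDiff ℝ (n + 1 : ℕ) φ →
      (∀ i j, i + j = n + 1 → ∀ x ∈ Dk, |J φ i j x| ≤ M) → 1 ≤ N → Tame N g →
      eLpNorm (ext univ fun x => cexp (I * (φ x : ℂ)) * g x) (ENNReal.ofReal q) volume ≤
        C * ((1 + (M / n.factorial) ^ ((2 : ℝ) / n)) * ((1 + n) ^ 5 * N) ^ κ : ℝ≥0) *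
          eLpNorm g (ENNReal.ofReal p) volume := by
  have hq0 : 0 < q := by linarith
  have hq2 : 0 < q - 2 := by linarith
  have hp1 : 1 < p := lt_of_le_of_lt (by rw [le_div_iff₀ hq2]; linarith) hp
  have hq1 : 1 ≤ ENNReal.ofReal q := by
    rw [← ENNReal.ofReal_one]
    exact ENNReal.ofReal_le_ofReal (by linarith)
  obtain ⟨C, hC⟩ := one_part q p κ hq hp hκ
  refine ⟨4 * C + 1, ?_⟩
  intro n φ M N g hn hφ hJ hN hg
  set L : ℝ≥0 := (1 + (M / n.factorial) ^ ((2 : ℝ) / n)) * ((1 + n) ^ 5 * N) ^ κ with hL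
  have hN0 : 0 < (N : ℝ≥0) := by exact_mod_cast hN
  have hLp : 0 < L := by
    rw [hL]
    apply mul_pos
    · exact lt_of_lt_of_le one_pos (le_add_of_nonneg_right zero_le)
    · apply NNReal.rpow_pos
      have h0 : (0 : ℝ≥0) < 1 + n := lt_of_lt_of_le one_pos (le_add_of_nonneg_right zero_le)
      positivity
  rcases eq_or_ne (eLpNorm g (ENNReal.ofReal p) volume) ⊤ with htop | htop
  · rw [htop, ENNReal.mul_top]
    · exact le_top
    · rw [← ENNReal.coe_mul, ENNReal.coe_ne_zero]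
      have h0 : (0 : ℝ≥0) < 4 * C + 1 := lt_of_lt_of_le one_pos (le_add_of_nonneg_left zero_le)
      exact (mul_pos h0 hLp).ne'
  -- the four parts
  have hφc : Continuous φ := hφ.continuous
  have hwm : Measurable fun x => cexp (I * (φ x : ℂ)) := by
    apply Continuous.measurable
    fun_prop
  have key : ∀ h : ℝ × ℝ → ℝ, Measurable h → (∀ x, 0 ≤ h x) → (∀ x, h x ≤ ‖g x‖) →
      (∀ s : ℝ, 0 < s → LC N {x | s < h x}) →
      (eLpNorm (ext univ fun x => cexp (I * (φ x : ℂ)) * (h x : ℂ)) (ENNReal.ofReal q) volume ≤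
        C * L * eLpNorm g (ENNReal.ofReal p) volume) ∧
      Integrable (fun x => cexp (I * (φ x : ℂ)) * (h x : ℂ)) ∧
      Measurable (fun x => cexp (I * (φ x : ℂ)) * (h x : ℂ)) := by
    intro h hm h0 hle hlc
    have hle2 : eLpNorm h (ENNReal.ofReal p) volume ≤ eLpNorm g (ENNReal.ofReal p) volume := by
      apply eLpNorm_mono
      intro x
      rw [Real.norm_eq_abs, abs_of_nonneg (h0 x)]
      exact hle x
    have hfin : eLpNorm h (ENNReal.ofReal p) volume ≠ ⊤ := ne_top_of_le_ne_top htop hle2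
    have hD : ∀ x, x ∉ Dk → h x = 0 := by
      intro x hx
      have h1 := hle x
      rw [hg.supp x hx, norm_zero] at h1
      exact le_antisymm h1 (h0 x)
    have hint : Integrable h volume := by
      have h1 : MemLp h (ENNReal.ofReal p) volume := ⟨hm.aestronglyMeasurable, lt_top_iff_ne_top.mpr hfin⟩
      have hfm : IsFiniteMeasure ((volume : Measure (ℝ × ℝ)).restrict Dk) := ⟨by
        rw [Measure.restrict_apply_univ]
        exact lt_of_le_of_lt Dk_vol (by norm_num)⟩
      have h2 : IntegrableOn h Dk volume := by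
        have h3 := MemLp.mono_exponent (p := 1) (q := ENNReal.ofReal p) (h1.restrict Dk) (by
          rw [← ENNReal.ofReal_one]
          exact ENNReal.ofReal_le_ofReal hp1.le)
        exact memLp_one_iff_integrable.mp h3
      rwa [integrableOn_iff_integrable_of_support_subset] at h2
      intro x hx
      by_contra hc
      exact hx (hD x hc)
    have hmc : Measurable fun x => ((h x : ℝ) : ℂ) := Complex.measurable_ofReal.comp hm
    refine ⟨?_, ?_, hwm.mul hmc⟩
    · refine (hC n φ M N h hn hφ hJ hN hm h0 hD hlc hfin).trans ?_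
      gcongr
    · apply (hint.ofReal).bdd_mul (c := 1) hwm.aestronglyMeasurable
      exact ae_of_all _ fun x => by rw [mul_comm I, Complex.norm_exp_ofReal_mul_I]
  have hre : Measurable fun x => (g x).re := Complex.measurable_re.comp hg.meas
  have him : Measurable fun x => (g x).im := Complex.measurable_im.comp hg.meas
  have hset : ∀ (r : ℝ × ℝ → ℝ) (s : ℝ), 0 < s → {x | s < max (r x) 0} = {x | s < r x} := by
    intro r s hs
    ext x
    simp only [mem_ofPred_eq, lt_max_iff]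
    constructor
    · rintro (h | h)
      · exact h
      · linarith
    · exact Or.inl
  have hset2 : ∀ (r : ℝ × ℝ → ℝ) (s : ℝ), 0 < s → {x | s < max (-(r x)) 0} = {x | r x < -s} := by
    intro r s hs
    rw [hset _ s hs]
    ext x
    simp only [mem_ofPred_eq]
    constructor <;> intro h <;> linarith
  have k1 := key (fun x => max (g x).re 0) (hre.max measurable_const) (fun x => le_max_right _ _)
    (fun x => max_le ((le_abs_self _).trans (Complex.abs_re_le_norm _)) (norm_nonneg _))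
    (fun s hs => by rw [hset _ s hs]; exact (hg.lev s hs).1)
  have k2 := key (fun x => max (-(g x).re) 0) (hre.neg.max measurable_const) (fun x => le_max_right _ _)
    (fun x => max_le ((neg_le_abs _).trans (Complex.abs_re_le_norm _)) (norm_nonneg _))
    (fun s hs => by rw [hset2 (fun x => (g x).re) s hs]; exact (hg.lev s hs).2.1)
  have k3 := key (fun x => max (g x).im 0) (him.max measurable_const) (fun x => le_max_right _ _)
    (fun x => max_le ((le_abs_self _).trans (Complex.abs_im_le_norm _)) (norm_nonneg _))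
    (fun s hs => by rw [hset _ s hs]; exact (hg.lev s hs).2.2.1)
  have k4 := key (fun x => max (-(g x).im) 0) (him.neg.max measurable_const) (fun x => le_max_right _ _)
    (fun x => max_le ((neg_le_abs _).trans (Complex.abs_im_le_norm _)) (norm_nonneg _))
    (fun s hs => by rw [hset2 (fun x => (g x).im) s hs]; exact (hg.lev s hs).2.2.2)
  set f1 : ℝ × ℝ → ℂ := fun x => cexp (I * (φ x : ℂ)) * ((max (g x).re 0 : ℝ) : ℂ) with hf1
  set f2 : ℝ × ℝ → ℂ := fun x => cexp (I * (φ x : ℂ)) * ((max (-(g x).re) 0 : ℝ) : ℂ) with hf2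
  set f3 : ℝ × ℝ → ℂ := fun x => cexp (I * (φ x : ℂ)) * ((max (g x).im 0 : ℝ) : ℂ) with hf3
  set f4 : ℝ × ℝ → ℂ := fun x => cexp (I * (φ x : ℂ)) * ((max (-(g x).im) 0 : ℝ) : ℂ) with hf4
  have hpn : ∀ r : ℝ, r = max r 0 - max (-r) 0 := by
    intro r
    rcases le_total 0 r with h | h
    · rw [max_eq_left h, max_eq_right (by linarith), sub_zero]
    · rw [max_eq_right h, max_eq_left (by linarith)]
      ring
  have hdec : (fun x => cexp (I * (φ x : ℂ)) * g x) =
      fun x => (f1 x + (-1) * f2 x) + I * (f3 x + (-1) * f4 x) := by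
    ext x
    simp only [hf1, hf2, hf3, hf4]
    have e1 : g x = (((max (g x).re 0 - max (-(g x).re) 0 : ℝ)) : ℂ) +
        ((max (g x).im 0 - max (-(g x).im) 0 : ℝ) : ℂ) * I := by
      rw [← hpn, ← hpn]
      exact (Complex.re_add_im (g x)).symm
    conv_lhs => rw [e1]
    push_cast
    ring
  have i12 : Integrable fun x => f1 x + (-1) * f2 x := k1.2.1.add (k2.2.1.const_mul _)
  have i34 : Integrable fun x => f3 x + (-1) * f4 x := k3.2.1.add (k4.2.1.const_mul _)
  have m12 : Measurable fun x => f1 x + (-1) * f2 x := k1.2.2.add (k2.2.2.const_mul _)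
  have m34 : Measurable fun x => f3 x + (-1) * f4 x := k3.2.2.add (k4.2.2.const_mul _)
  rw [hdec]
  have a1 := ext_lin (ENNReal.ofReal q) hq1 (fun x => f1 x + (-1) * f2 x) (fun x => f3 x + (-1) * f4 x) I
    (by simp) i12 i34 m12 m34
  have a2 := ext_lin (ENNReal.ofReal q) hq1 f1 f2 (-1) (by simp) k1.2.1 k2.2.1 k1.2.2 k2.2.2
  have a3 := ext_lin (ENNReal.ofReal q) hq1 f3 f4 (-1) (by simp) k3.2.1 k4.2.1 k3.2.2 k4.2.2
  refine a1.trans ?_
  calc eLpNorm (ext univ fun x => f1 x + (-1) * f2 x) (ENNReal.ofReal q) volume +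
        eLpNorm (ext univ fun x => f3 x + (-1) * f4 x) (ENNReal.ofReal q) volume
      ≤ (C * L * eLpNorm g (ENNReal.ofReal p) volume + C * L * eLpNorm g (ENNReal.ofReal p) volume) +
        (C * L * eLpNorm g (ENNReal.ofReal p) volume + C * L * eLpNorm g (ENNReal.ofReal p) volume) :=
        add_le_add (a2.trans (add_le_add k1.1 k2.1)) (a3.trans (add_le_add k3.1 k4.1))
    _ = (4 * C : ℝ≥0) * L * eLpNorm g (ENNReal.ofReal p) volume := by
        push_cast
        ring
    _ ≤ _ := by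
        gcongr
        exact le_add_of_nonneg_right zero_le

end Pool.Agent.Y250.BC
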